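import Pool.Agent.Lib.MP_a94b90_nt.U.Tay

/-! From the inequality to the orbit and back. -/

set_option autoImplicit false

namespace Pool.Agent.Lib.MP_a94b90_nt.U

open Matrix Polynomial Filter

namespace Alg

theorem cst (n : ℕ) (y : ℝ) :
    (1 : ℝ) ≤ ((n + 1 : ℕ) : ℝ) * (2 ^ (n + 1) * (1 + |y|) ^ (n + 1)) :=
  one_le_mul_of_one_le_of_one_le (by exact_mod_cast n.succ_pos)
    (one_le_mul_of_one_le_of_one_le (one_le_pow₀ one_le_two)
      (one_le_pow₀ (by linarith [abs_nonneg y])))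

theorem tay_le (d : ℕ) (y : ℝ) (w : Fin d → ℝ) (a : Fin d) :
    |(w ᵥ* tm d y) a| ≤ d * (2 ^ d * (1 + |y|) ^ d) * vn av w :=
  (le_vn av _ a).trans (vn_vecMul_le av w (by positivity) fun a b => abs_tm_le d y a b)

theorem co (d j : ℕ) (y : ℝ) (w : Fin d → ℝ) (a : Fin d) :
    av ((w ᵥ* am d j y) a) = |(w ᵥ* tm d y) a| * wt d j a := by
  rw [av_apply, am_apply, abs_mul, abs_of_pos (wt_pos d j a)]

theorem wt_zero (n j : ℕ) : wt (n + 1) j 0 = (2 ^ j) ^ n := by
  simp [wt, ← pow_mul, mul_comm]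

theorem wt_ne {d : ℕ} (j : ℕ) {a : Fin d} (h : (a : ℕ) ≠ 0) : wt d j a = (2 ^ j)⁻¹ := if_neg h

/-- A first time at which the exponential wins. -/
theorem time (B : ℕ) {A c : ℝ} (hA : 0 < A) (hc : 0 < c) : ∃ j : ℕ,
    A * ((j : ℝ) + 1) ^ B < c * 2 ^ j ∧ (j = 0 ∨ c * 2 ^ j ≤ 2 * A * ((j : ℝ) + 1) ^ B) := by
  have ex : ∃ j : ℕ, A * ((j : ℝ) + 1) ^ B < c * 2 ^ j := by
    have h := (tendsto_pow_const_div_const_pow_of_one_lt B (one_lt_two (α := ℝ))).comp
      (tendsto_add_atTop_nat 1)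
    obtain ⟨j, hj⟩ := (h.eventually (gt_mem_nhds (show 0 < c / (2 * A) by positivity))).exists
    simp only [Function.comp_apply] at hj
    rw [div_lt_div_iff₀ (by positivity) (by positivity), pow_succ] at hj
    push_cast at hj
    exact ⟨j, by linarith⟩
  classical
  refine ⟨Nat.find ex, Nat.find_spec ex, ?_⟩
  rcases h : Nat.find ex with _ | i
  · exact .inl rfl
  · have h1 := not_lt.1 (Nat.find_min ex (m := i) (by omega))
    have h2 : ((i : ℝ) + 1) ^ B ≤ (((i + 1 : ℕ) : ℝ) + 1) ^ B := by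
      push_cast
      gcongr
      linarith
    refine .inr ?_
    rw [pow_succ]
    nlinarith

theorem log_le {B j : ℕ} {K H : ℝ} (hB : 1 ≤ B) (hK : 1 ≤ K) (hH : 1 ≤ H)
    (h : 2 ^ j ≤ K * H * ((j : ℝ) + 1) ^ B) :
    (j : ℝ) + 1 ≤ 4 * (1 + 2 * (Real.log K + B * Real.log (4 * B))) * Real.log (2 * H) := by
  have b1 : (1 : ℝ) ≤ B := by exact_mod_cast hB
  have h1 := Real.log_le_log (by positivity) h
  rw [Real.log_mul (by positivity) (by positivity), Real.log_mul (by positivity) (by positivity),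
    Real.log_pow, Real.log_pow] at h1
  have h2 := Real.log_le_sub_one_of_pos (show 0 < ((j : ℝ) + 1) / (4 * B) by positivity)
  rw [Real.log_div (by positivity) (by positivity)] at h2
  have h3 : B * Real.log ((j : ℝ) + 1) ≤ ((j : ℝ) + 1) / 4 + B * Real.log (4 * B) := by
    have e : B * (((j : ℝ) + 1) / (4 * B)) = ((j : ℝ) + 1) / 4 := by field_simp
    nlinarith
  have l2 := Real.log_two_gt_d9
  have lH := Real.log_nonneg hH
  have lK := Real.log_nonneg hK
  have lB : 0 ≤ B * Real.log (4 * B) := mul_nonneg (by positivity) (Real.log_nonneg (by linarith))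
  have j0 : (0 : ℝ) ≤ j := j.cast_nonneg
  rw [Real.log_mul two_ne_zero (by positivity)]
  nlinarith [mul_nonneg (add_nonneg lK lB) lH, mul_nonneg (add_nonneg lK lB) (sub_nonneg.2 l2.le),
    mul_nonneg j0 (sub_nonneg.2 l2.le)]

end Alg

theorem algS : AlgS := by
  intro n θ c hc h
  have hC := Alg.cst n (-θ)
  set C : ℝ := ((n + 1 : ℕ) : ℝ) * (2 ^ (n + 1) * (1 + |-θ|) ^ (n + 1)) with eC
  refine ⟨min 1 (c / C ^ n), by positivity, fun j Q hQ => ?_⟩
  have N0 := nrm_nonneg (n + 1) j θ Q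
  have T1 : (1 : ℝ) ≤ 2 ^ j := one_le_pow₀ one_le_two
  have le : ∀ a, |(cv ℝ Q ᵥ* tm (n + 1) θ) a| * wt (n + 1) j a ≤ nrm (n + 1) j θ Q := fun a =>
    (Alg.co _ j θ _ a).symm.trans_le (le_vn av _ a)
  set N := nrm (n + 1) j θ Q
  have h0 := le 0
  rw [Alg.wt_zero] at h0
  have h1 : vn av (cv ℝ Q ᵥ* tm (n + 1) θ) ≤ N * 2 ^ j := vn_le av (by positivity) fun a => by
    rw [av_apply]
    by_cases ha : (a : ℕ) = 0
    · rw [show a = 0 from Fin.ext ha]
      exact (le_mul_of_one_le_right (abs_nonneg _) (one_le_pow₀ T1)).trans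
        (h0.trans (le_mul_of_one_le_right N0 T1))
    · have := le a
      rwa [Alg.wt_ne j ha, ← div_eq_mul_inv, div_le_iff₀ (by positivity)] at this
  have h2 := h Q hQ (C * (N * 2 ^ j)) fun b => by
    have := Alg.tay_le (n + 1) (-θ) (cv ℝ Q ᵥ* tm (n + 1) θ) b
    rw [vecMul_vecMul, tm_mul_neg, vecMul_one] at this
    exact this.trans (mul_le_mul_of_nonneg_left h1 (by positivity))
  rw [tm_apply_zero] at h0
  have h3 : c ≤ C ^ n * N ^ (n + 1) := by
    refine h2.trans ?_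
    calc _ = C ^ n * N ^ n * (|∑ b, cv ℝ Q b * θ ^ (b : ℕ)| * (2 ^ j) ^ n) := by
          simp only [mul_pow, cv]; ring
      _ ≤ C ^ n * N ^ n * N := by gcongr
      _ = _ := by ring
  rcases le_total 1 N with h4 | h4
  · exact (min_le_left _ _).trans h4
  · refine (min_le_right _ _).trans ?_
    rw [div_le_iff₀' (by positivity)]
    exact h3.trans (mul_le_mul_of_nonneg_left (pow_le_of_le_one N0 h4 n.succ_ne_zero)
      (by positivity))

theorem convS : ConvS := by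
  intro n ξ c hc h
  have hC := Alg.cst n ξ
  set C : ℝ := ((n + 1 : ℕ) : ℝ) * (2 ^ (n + 1) * (1 + |ξ|) ^ (n + 1)) with eC
  set B := 2 * ((n + 1) * (n + 1)) with eB
  have hB : 1 ≤ B := Nat.succ_le_of_lt (by positivity)
  have b1 : (1 : ℝ) ≤ B := by exact_mod_cast hB
  have hK : 1 ≤ 1 + 2 * C / c := le_add_of_nonneg_right (by positivity)
  set K := 1 + 2 * C / c with eK
  have hE : 0 < 4 * (1 + 2 * (Real.log K + B * Real.log (4 * B))) := by
    have := Real.log_nonneg hK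
    have := Real.log_nonneg (show (1 : ℝ) ≤ 4 * B by linarith)
    positivity
  set E := 4 * (1 + 2 * (Real.log K + B * Real.log (4 * B))) with eE
  refine ⟨c / (K ^ n * E ^ (2 * (n + 1) ^ 3)), by positivity, fun Q hQ hd H hH => ?_⟩
  have H1 : 1 ≤ H := le_trans (by
    exact_mod_cast Int.one_le_abs (leadingCoeff_ne_zero.2 hQ)) (hH Q.natDegree)
  have hQ' : (fun b : Fin (n + 1) => Q.coeff b) ≠ 0 := fun e =>
    leadingCoeff_ne_zero.2 hQ (congrFun e ⟨_, hd⟩)
  obtain ⟨j, j1, j2⟩ := Alg.time B (show 0 < C * H by positivity) hc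
  have J1 : (1 : ℝ) ≤ ((j : ℝ) + 1) ^ B := one_le_pow₀ (by linarith [j.cast_nonneg (α := ℝ)])
  have j3 : 2 ^ j ≤ K * H * ((j : ℝ) + 1) ^ B := by
    rcases j2 with rfl | j2
    · exact (pow_zero _).trans_le
        (one_le_mul_of_one_le_of_one_le (one_le_mul_of_one_le_of_one_le hK H1) J1)
    · refine le_of_mul_le_mul_left (j2.trans ?_) hc
      have e : c * K = c + 2 * C := by rw [eK]; field_simp
      rw [← mul_assoc, ← mul_assoc c, ← mul_assoc c, e]
      gcongr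
      linarith
  have j4 := Alg.log_le hB hK H1 j3
  have h1 := h j _ hQ'
  obtain ⟨a, ha⟩ := exists_vn av n.succ_pos
    (cv ℝ (fun b : Fin (n + 1) => Q.coeff b) ᵥ* am (n + 1) j ξ)
  rw [nrm, ← ha, Alg.co, div_le_iff₀ (by positivity)] at h1
  by_cases a0 : (a : ℕ) = 0
  · rw [show a = 0 from Fin.ext a0, Alg.wt_zero, tm_apply_zero] at h1
    have e : aeval ξ Q = ∑ b : Fin (n + 1), cv ℝ (fun b : Fin (n + 1) => Q.coeff b) b * ξ ^ (b : ℕ) := by
      rw [aeval_eq_sum_range' hd, ← Fin.sum_univ_eq_sum_range (fun i => Q.coeff i • ξ ^ i)]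
      simp [cv]
    rw [← e] at h1
    rw [div_le_iff₀ (by positivity)]
    calc c ≤ _ := h1
      _ ≤ |aeval ξ Q| * (K * H * ((j : ℝ) + 1) ^ B) ^ n * ((j : ℝ) + 1) ^ B := by gcongr
      _ = |aeval ξ Q| * (K * H) ^ n * ((j : ℝ) + 1) ^ (2 * (n + 1) ^ 3) := by
          rw [show 2 * (n + 1) ^ 3 = B * n + B by rw [eB]; ring, mul_pow, ← pow_mul, pow_add]
          ring
      _ ≤ |aeval ξ Q| * (K * H) ^ n * (E * Real.log (2 * H)) ^ (2 * (n + 1) ^ 3) := by gcongr
      _ = _ := by rw [mul_pow, mul_pow]; ring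
  · exfalso
    have h2 := (Alg.tay_le (n + 1) ξ (cv ℝ fun b : Fin (n + 1) => Q.coeff b) a).trans
      (mul_le_mul_of_nonneg_left (vn_le av (b := H) (by positivity) fun b => hH b) (by positivity))
    rw [Alg.wt_ne j a0, mul_right_comm, ← div_eq_mul_inv, le_div_iff₀ (by positivity)] at h1
    exact absurd (h1.trans (mul_le_mul_of_nonneg_right h2 (by positivity))) (not_le.2 j1)

end Pool.Agent.Lib.MP_a94b90_nt.U
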