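import Pool.Agent.Lib.MP_a94b90_nt.U.St

/-! Basic facts on `vn`, `mn` and integer matrices. -/

set_option autoImplicit false

namespace Pool.Agent.Lib.MP_a94b90_nt.U

open Matrix Polynomial

section
variable {K : Type} [Field K] (v : AbsoluteValue K ℝ) {r d : ℕ}

theorem vn_nonneg (w : Fin d → K) : 0 ≤ vn v w := Real.iSup_nonneg fun _ => v.nonneg _

theorem le_vn (w : Fin d → K) (a : Fin d) : v (w a) ≤ vn v w :=
  le_ciSup (f := fun a => v (w a)) (Finite.bddAbove_range _) a

theorem vn_le {w : Fin d → K} {b : ℝ} (hb : 0 ≤ b) (h : ∀ a, v (w a) ≤ b) : vn v w ≤ b :=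
  Real.iSup_le h hb

theorem exists_vn (hd : 1 ≤ d) (w : Fin d → K) : ∃ a, v (w a) = vn v w := by
  haveI : Nonempty (Fin d) := ⟨⟨0, hd⟩⟩
  exact exists_eq_ciSup_of_finite (f := fun a => v (w a))

theorem vn_smul (c : K) (w : Fin d → K) : vn v (c • w) = v c * vn v w := by
  unfold vn
  rw [Real.mul_iSup_of_nonneg (v.nonneg c)]
  simp

theorem vn_vecMul_le (w : Fin d → K) {U : Matrix (Fin d) (Fin d) K} {u : ℝ} (hu : 0 ≤ u)
    (h : ∀ a b, v (U a b) ≤ u) : vn v (w ᵥ* U) ≤ d * u * vn v w := by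
  have h0 := vn_nonneg v w
  refine vn_le v (by positivity) fun a => ?_
  calc v ((w ᵥ* U) a) = v (∑ b, w b * U b a) := rfl
    _ ≤ ∑ b, v (w b * U b a) := v.sum_le _ _
    _ ≤ ∑ _b : Fin d, u * vn v w := Finset.sum_le_sum fun b _ => by
        rw [map_mul, mul_comm]
        exact mul_le_mul (h b a) (le_vn v w b) (v.nonneg _) hu
    _ = d * u * vn v w := by simp [mul_assoc]

theorem mn_nonneg (B : Matrix (Fin r) (Fin d) K) : 0 ≤ mn v B :=
  Real.iSup_nonneg fun _ => v.nonneg _

theorem le_mn (B : Matrix (Fin r) (Fin d) K) (s : Fin r → Fin d) :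
    v (B.submatrix id s).det ≤ mn v B :=
  le_ciSup (f := fun s : Fin r → Fin d => v (B.submatrix id s).det) (Finite.bddAbove_range _) s

theorem mn_le {B : Matrix (Fin r) (Fin d) K} {b : ℝ} (hb : 0 ≤ b)
    (h : ∀ s : Fin r → Fin d, v (B.submatrix id s).det ≤ b) : mn v B ≤ b :=
  Real.iSup_le h hb

theorem exists_mn (hd : 1 ≤ d) (B : Matrix (Fin r) (Fin d) K) :
    ∃ s : Fin r → Fin d, v (B.submatrix id s).det = mn v B := by
  haveI : Nonempty (Fin d) := ⟨⟨0, hd⟩⟩
  exact exists_eq_ciSup_of_finite (f := fun s : Fin r → Fin d => v (B.submatrix id s).det)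

theorem mn_zero (B : Matrix (Fin 0) (Fin d) K) : mn v B = 1 := by
  unfold mn
  simp

theorem mn_mul_left (g : Matrix (Fin r) (Fin r) K) (B : Matrix (Fin r) (Fin d) K) :
    mn v (g * B) = v g.det * mn v B := by
  unfold mn
  rw [Real.mul_iSup_of_nonneg (v.nonneg _)]
  congr 1
  ext s
  rw [← map_mul, ← det_mul]
  rfl

theorem mn_cn (w : Fin d → K) (B : Matrix (Fin r) (Fin d) K) :
    mn v (cn w B) ≤ (r + 1) * vn v w * mn v B := by
  have h0 := vn_nonneg v w
  have h1 := mn_nonneg v B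
  refine mn_le v (by positivity) fun s => ?_
  rw [det_succ_row_zero]
  refine (v.sum_le _ _).trans ?_
  calc _ ≤ ∑ _j : Fin (r + 1), vn v w * mn v B := Finset.sum_le_sum fun j _ => by
        rw [map_mul, map_mul, map_pow, v.map_neg, map_one, one_pow, one_mul]
        exact mul_le_mul (le_vn v w (s j)) (le_mn v B (s ∘ j.succAbove)) (v.nonneg _) h0
    _ = _ := by simp [mul_assoc]

theorem det_mul_sub (B : Matrix (Fin r) (Fin d) K) (U : Matrix (Fin d) (Fin d) K)
    (s : Fin r → Fin d) : ((B * U).submatrix id s).det =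
      ∑ t : Fin r → Fin d, (∏ i, U (t i) (s i)) * (B.submatrix id t).det := by
  simp only [det_apply', submatrix_apply, id, mul_apply, Finset.prod_univ_sum, Finset.mul_sum,
    Fintype.piFinset_univ]
  rw [Finset.sum_comm]
  refine Finset.sum_congr rfl fun t _ => Finset.sum_congr rfl fun σ _ => ?_
  rw [Finset.prod_mul_distrib]
  ring

theorem mn_mul_right (B : Matrix (Fin r) (Fin d) K) {U : Matrix (Fin d) (Fin d) K} {u : ℝ}
    (hu : 0 ≤ u) (h : ∀ a b, v (U a b) ≤ u) : mn v (B * U) ≤ (d * u) ^ r * mn v B := by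
  have h1 := mn_nonneg v B
  refine mn_le v (by positivity) fun s => ?_
  rw [det_mul_sub]
  refine (v.sum_le _ _).trans ?_
  calc _ ≤ ∑ _t : Fin r → Fin d, u ^ r * mn v B := Finset.sum_le_sum fun t _ => by
        rw [map_mul, map_prod]
        refine mul_le_mul ?_ (le_mn v B t) (v.nonneg _) (by positivity)
        calc _ ≤ ∏ _i : Fin r, u := Finset.prod_le_prod (fun i _ => v.nonneg _) fun i _ => h _ _
          _ = _ := by simp
    _ = _ := by simp [mul_pow, mul_assoc]

theorem cn_mul (w : Fin d → K) (B : Matrix (Fin r) (Fin d) K) (U : Matrix (Fin d) (Fin d) K) :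
    cn w B * U = cn (w ᵥ* U) (B * U) := by
  ext i a
  refine Fin.cases ?_ (fun i => ?_) i <;> rfl

theorem cs_cn (Q : Fin d → ℤ) (M : Matrix (Fin r) (Fin d) ℤ) :
    cs K (cn Q M) = cn (cv K Q) (cs K M) := by
  ext i a
  refine Fin.cases ?_ (fun i => ?_) i <;> rfl

theorem cs_det (M : Matrix (Fin r) (Fin d) ℤ) (s : Fin r → Fin d) :
    ((cs K M).submatrix id s).det = ((M.submatrix id s).det : K) := by
  rw [Int.cast_det]
  rfl

theorem cs_mul [CharZero K] {M M' : Matrix (Fin r) (Fin d) ℤ} {g : Matrix (Fin r) (Fin r) ℚ}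
    (h : cs ℚ M = g * cs ℚ M') : cs K M = g.map (Rat.castHom K) * cs K M' := by
  ext i a
  have := congrArg (fun x : ℚ => (x : K)) (congrFun (congrFun h i) a)
  simpa [cs, mul_apply] using this

theorem cv_vecMul (c : Fin r → ℤ) (M : Matrix (Fin r) (Fin d) ℤ) :
    cv K (c ᵥ* M) = cv K c ᵥ* cs K M := by
  ext a
  simp [cv, cs, vecMul, dotProduct]

theorem cv_eq_zero [CharZero K] {Q : Fin d → ℤ} (h : cv K Q = 0) : Q = 0 :=
  funext fun b => by simpa [cv] using congrFun h b

theorem exists_minor {A : Matrix (Fin r) (Fin d) K} (hA : LinearIndependent K A.row) :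
    ∃ t : Fin r → Fin d, (A.submatrix id t).det ≠ 0 := by
  have h : Module.finrank K (Submodule.span K (Set.range A.row)) = r := by
    rw [finrank_span_eq_card hA, Fintype.card_fin]
  rw [← Matrix.rank_eq_finrank_span_row, Matrix.rank_eq_finrank_span_cols] at h
  obtain ⟨f, f1, -, f2⟩ := Submodule.exists_fun_fin_finrank_span_eq K (Set.range A.col)
  choose t ht using f1
  refine ⟨t ∘ Fin.cast h.symm, isUnit_iff_ne_zero.1 ((Matrix.isUnit_iff_isUnit_det _).1
    (Matrix.linearIndependent_cols_iff_isUnit.1 ?_))⟩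
  have e : (A.submatrix id (t ∘ Fin.cast h.symm)).col = f ∘ Fin.cast h.symm :=
    funext fun c => ht _
  rw [e]
  exact f2.comp _ (Fin.cast_injective _)

theorem indep_of_minor {A : Matrix (Fin r) (Fin d) K} {t : Fin r → Fin d}
    (h : (A.submatrix id t).det ≠ 0) : LinearIndependent K A.row :=
  LinearIndependent.of_comp (LinearMap.funLeft K K t)
    (Matrix.linearIndependent_rows_of_det_ne_zero h)

end

variable {r d : ℕ}

theorem ind_iff (M : Matrix (Fin r) (Fin d) ℤ) :
    Ind M ↔ ∃ t : Fin r → Fin d, (M.submatrix id t).det ≠ 0 := by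
  constructor
  · intro h
    obtain ⟨t, ht⟩ := exists_minor (A := cs ℚ M) h
    exact ⟨t, fun h0 => ht (by rw [cs_det, h0, Int.cast_zero])⟩
  · rintro ⟨t, ht⟩
    exact indep_of_minor (A := cs ℚ M) (t := t) (by rw [cs_det]; exact_mod_cast ht)

theorem Ind.le {M : Matrix (Fin r) (Fin d) ℤ} (h : Ind M) : r ≤ d := by
  simpa using LinearIndependent.fintype_card_le_finrank h

theorem Ind.vecMul_ne {M : Matrix (Fin r) (Fin d) ℤ} (h : Ind M) {c : Fin r → ℤ} (hc : c ≠ 0) :
    c ᵥ* M ≠ 0 := by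
  intro h0
  have h1 : ∑ i, cv ℚ c i • cv ℚ (M i) = 0 := by
    ext a
    have := congrArg (fun x : ℤ => (x : ℚ)) (congrFun h0 a)
    simpa [cv, vecMul, dotProduct] using this
  exact hc (cv_eq_zero (K := ℚ) (funext (Fintype.linearIndependent_iff.1 h _ h1)))

theorem av_apply (x : ℝ) : av x = |x| := rfl

theorem v2_apply (x : ℚ) : v2 x = padicNorm 2 x := rfl

end Pool.Agent.Lib.MP_a94b90_nt.U
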