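import Pool.Agent.Lib.MP_a94b90_nt.U.Bas

/-! Short vectors are rare. -/

set_option autoImplicit false

namespace Pool.Agent.Lib.MP_a94b90_nt.U

open Matrix Module Submodule

namespace CoreJ

variable {d r r' : ℕ} {W : Submodule ℚ (Fin d → ℚ)} {M : Matrix (Fin r) (Fin d) ℤ}

/-- the rows of `M` are a basis of `W`. -/
def Adm (W : Submodule ℚ (Fin d → ℚ)) (r : ℕ) (M : Matrix (Fin r) (Fin d) ℤ) : Prop :=
  Ind M ∧ span ℚ (Set.range fun i => cv ℚ (M i)) = W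

theorem Adm.rk (h : Adm W r M) : finrank ℚ W = r := by
  rw [← h.2, finrank_span_eq_card h.1, Fintype.card_fin]

theorem Adm.mul {M' : Matrix (Fin r) (Fin d) ℤ} (h : Adm W r M) (h' : Adm W r M') :
    ∃ g : Matrix (Fin r) (Fin r) ℚ, cs ℚ M = g * cs ℚ M' := by
  have : ∀ i, ∃ c : Fin r → ℚ, ∑ j, c j • cv ℚ (M' j) = cv ℚ (M i) := fun i =>
    (mem_span_range_iff_exists_fun ℚ).1 ((h.2.trans h'.2.symm).le (subset_span ⟨i, rfl⟩))
  choose g hg using this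
  refine ⟨Matrix.of g, Matrix.ext fun i a => ?_⟩
  simpa [cs, cv, mul_apply] using (congrFun (hg i) a).symm

theorem Adm.cons (h : Adm W r M) {Q : Fin d → ℤ} (hQ : cv ℚ Q ∉ W) :
    Adm (span ℚ {cv ℚ Q} ⊔ W) (r + 1) (cn Q M) := by
  have e : (fun i => cv ℚ (cn Q M i)) = Fin.cons (cv ℚ Q) fun i => cv ℚ (M i) :=
    funext fun i => Fin.cases rfl (fun _ => rfl) i
  refine ⟨?_, ?_⟩
  · rw [Ind, e]
    exact linearIndependent_finCons.2 ⟨h.1, h.2.symm ▸ hQ⟩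
  · rw [e, Fin.range_cons, span_insert, h.2]

theorem adm_bot : Adm (⊥ : Submodule ℚ (Fin d → ℚ)) 0 0 :=
  ⟨linearIndependent_empty_type, by rw [Set.range_eq_empty, span_empty]⟩

end CoreJ

open CoreJ in
theorem coreS (h : TreeS) : CoreS := by
  classical
  intro d S π N F nv ε ρ η e0 e1 e2 e3 hT F0 F1 Fm Fc Fg ⟨y0, y1, y2⟩
  let P := {W : Submodule ℚ (Fin d → ℚ) // ∃ r M, Adm W r M}
  let ψ : P → ℕ → ℝ := fun W x => sInf {t | ∃ r M, Adm W.1 r M ∧ F x r M = t}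
  have ne : ∀ (W : P) x, {t | ∃ r M, Adm W.1 r M ∧ F x r M = t}.Nonempty :=
    fun ⟨_, r, M, q⟩ x => ⟨_, r, M, q, rfl⟩
  have up : ∀ (W : P) x r M, Adm W.1 r M → ψ W x ≤ F x r M := fun W x r M q =>
    csInf_le ⟨0, fun _ ⟨_, _, _, e⟩ => e ▸ F0 _ _ _⟩ ⟨r, M, q, rfl⟩
  have lo : ∀ (W : P) x b, ψ W x < b → ∃ r M, Adm W.1 r M ∧ F x r M < b := fun W x b q => by
    obtain ⟨_, ⟨r, M, q1, rfl⟩, q2⟩ := exists_lt_of_csInf_lt (ne W x) q
    exact ⟨r, M, q1, q2⟩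
  have key := h P S π N (fun W => finrank ℚ W.1) (d + 1) ψ ε ρ η
    (fun _ _ q => finrank_lt_finrank_of_lt q)
    (fun W => Nat.lt_succ_of_le ((finrank_le W.1).trans_eq (finrank_fin_fun ℚ))) e3 hT
    (fun W i hi x hx y hy e q => ?_) fun W => ⟨y0, y1, le_csInf (ne W y0)
      fun _ ⟨r, M, q, e⟩ => e ▸ y2 r M q.1⟩
  · push_cast at key
    refine le_trans (Nat.cast_le.2 (Finset.card_le_card fun x hx => ?_)) key
    obtain ⟨hx, Q, Q0, hQ⟩ := Finset.mem_filter.1 hx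
    refine Finset.mem_filter.2 ⟨hx, fun ⟨D, D1, D2, D3⟩ => ?_⟩
    have b0 : cv ℚ Q ∉ (⊥ : Submodule ℚ (Fin d → ℚ)) := fun q => Q0 (cv_eq_zero q)
    obtain ⟨W, W1, W2⟩ := ((insert ⟨⊥, 0, 0, adm_bot⟩ D).filter fun W : P =>
      cv ℚ Q ∉ W.1).exists_max_image (fun W => finrank ℚ W.1)
        ⟨_, Finset.mem_filter.2 ⟨Finset.mem_insert_self _ _, b0⟩⟩
    obtain ⟨W1, W3⟩ := Finset.mem_filter.1 W1
    have k1 : ψ W x ≤ 1 ∧ ∀ E ∈ D, W ≤ E ∨ E ≤ W := by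
      rcases Finset.mem_insert.1 W1 with rfl | q
      · exact ⟨(up _ x 0 0 adm_bot).trans (F1 _ _), fun E _ => .inl (bot_le (a := E.1))⟩
      · exact ⟨(D2 W q).2.le.trans e2, fun E hE => D1.total q hE⟩
    let W' : P := ⟨_, W.2.elim fun r q => q.elim fun M q => ⟨_, _, q.cons W3⟩⟩
    have k2 : ε ≤ ψ W' x := by
      by_cases q : W' ∈ D
      · exact (D2 _ q).1
      refine e1.trans (D3 _ q fun E hE => ?_)
      by_cases p : cv ℚ Q ∈ E.1
      · exact .inr (sup_le ((span_singleton_le_iff_mem _ _).2 p)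
          ((k1.2 E hE).resolve_right fun a => W3 (a p)))
      · refine .inl (le_sup_of_le_right (c := E.1) ((k1.2 E hE).elim (fun a => ?_) id))
        exact (eq_of_le_of_finrank_le a
          (W2 E (Finset.mem_filter.2 ⟨Finset.mem_insert_of_mem hE, p⟩))).ge
    have k3 : ∀ r M, Adm W.1 r M → ε ≤ nv x Q * F x r M := fun r M q =>
      k2.trans ((up W' x _ _ (q.cons W3)).trans (Fc x r M Q (q.cons W3).1))
    obtain ⟨r, M, q⟩ := W.2
    have n0 : 0 < nv x Q := pos_of_mul_pos_left (e0.trans_le (k3 r M q)) (F0 _ _ _)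
    obtain ⟨r, M, q, p⟩ := lo W x _ (k1.1.trans_lt ((one_lt_div n0).2 hQ))
    exact (k3 r M q).not_gt ((lt_div_iff₀' n0).1 p)
  · obtain ⟨r, M, q0⟩ := W.2
    have : ∀ z, ∃ (M' : Matrix (Fin r) (Fin d) ℤ) (c : ℝ), Adm W.1 r M' ∧ 0 ≤ c ∧
        (∀ x, F x r M' = c * F x r M) ∧ (ψ W z < ε → F z r M' < ε) := fun z => by
      by_cases p : ψ W z < ε
      · obtain ⟨r', M', p1, p2⟩ := lo W z ε p
        obtain rfl : r' = r := p1.rk.symm.trans q0.rk
        obtain ⟨g, hg⟩ := p1.mul q0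
        obtain ⟨c, c0, c1⟩ := Fm _ _ _ g hg
        exact ⟨M', c, p1, c0, c1, fun _ => p2⟩
      · exact ⟨M, 1, q0, zero_le_one, fun _ => (one_mul _).symm, fun a => (p a).elim⟩
    choose M' c c1 c2 c3 c4 using this
    rcases ((node S π i x).filter fun z => ψ W z < ε).eq_empty_or_nonempty with p | p
    · rw [p, Finset.card_empty, Nat.cast_zero]
      positivity
    obtain ⟨z, -, hz⟩ := Finset.exists_min_image _ c p
    refine le_trans (Nat.cast_le.2 (Finset.card_le_card fun w hw => ?_))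
      (Fg r (M' z) (c1 z).1 1 one_pos i hi x hx y hy e
        ((one_mul ρ).trans_le (q.trans (up W y r _ (c1 z)))))
    refine Finset.mem_filter.2 ⟨(Finset.mem_filter.1 hw).1, ?_⟩
    rw [one_mul, c3]
    exact ((mul_le_mul_of_nonneg_right (hz w hw) (F0 _ _ _)).trans_eq (c3 w w).symm).trans_lt
      (c4 w (Finset.mem_filter.1 hw).2)

end Pool.Agent.Lib.MP_a94b90_nt.U
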