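import Pool.Agent.Lib.MP_a94b90_nt.U.Tay

/-! The nondivergence count over a valued field. -/

set_option autoImplicit false

namespace Pool.Agent.Lib.MP_a94b90_nt.U

open Matrix Polynomial

theorem IsTree.pred {S : Finset ℕ} {π : ℕ → ℕ → ℕ} {N : ℕ} (h : IsTree S π N) {i x y : ℕ}
    (e : π i x = π i y) : π (i - 1) x = π (i - 1) y := by
  cases i with
  | zero => exact e
  | succ i => exact h.2.1 i x y e

theorem countS (h1 : CoreS) (h2 : GoodS) : CountS := by
  intro K _ _ v d S π N z U E nE u ε ρ η hd hu hε hερ hρ hη hT E0 E1 nE0 Es El ball par near root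
    hC
  classical
  have hρ0 : 0 < ρ := hε.trans_le hερ
  have hd1 : (1 : ℝ) ≤ d := by exact_mod_cast hd
  refine h1 d S π N (fun x r M => E r M * mn v (cs K M * (tm d (z x) * U)))
    (fun x Q => d * nE Q * vn v (cv K Q ᵥ* (tm d (z x) * U))) ε ρ η hε hερ hρ hη hT
    (fun x r M => mul_nonneg (E0 r M) (mn_nonneg v _)) (fun x M => ?_) (fun r M M' g hg => ?_)
    (fun x r M Q hI => ?_) (fun r M hM a ha i hi x hx y hy hxy hay => ?_) root
  · rw [mn_zero, mul_one]
    exact E1 M
  · obtain ⟨c, hc, e⟩ := Es r M M' g hg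
    refine ⟨c * v (g.map (Rat.castHom K)).det, mul_nonneg hc (v.nonneg _), fun x => ?_⟩
    rw [e, cs_mul (K := K) hg, Matrix.mul_assoc, mn_mul_left]
    ring
  · have a1 := El r M Q hI
    have a2 := mn_cn v (cv K Q ᵥ* (tm d (z x) * U)) (cs K M * (tm d (z x) * U))
    have a3 : (r : ℝ) + 1 ≤ d := by exact_mod_cast hI.le
    have a4 := vn_nonneg v (cv K Q ᵥ* (tm d (z x) * U))
    have a5 := mn_nonneg v (cs K M * (tm d (z x) * U))
    have a6 := nE0 Q
    have a7 := E0 r M
    rw [cs_cn, cn_mul]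
    calc _ ≤ (nE Q * E r M) * (d * vn v (cv K Q ᵥ* (tm d (z x) * U)) *
          mn v (cs K M * (tm d (z x) * U))) :=
          mul_le_mul a1 (a2.trans (by gcongr)) (mn_nonneg v _) (by positivity)
      _ = _ := by ring
  · haveI : Nonempty (Fin d) := ⟨⟨0, hd⟩⟩
    choose f f1 f2 using mn_poly (cs K M) U
    have hE : 0 < E r M := by
      refine (E0 r M).lt_of_ne fun h => ?_
      rw [← h, zero_mul] at hay
      exact absurd hay (not_le.2 (mul_pos ha hρ0))
    have hN : ∀ x' ∈ node S π i x, x' ∈ S ∧ π i x' = π i x := fun x' h => Finset.mem_filter.1 h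
    refine h2 K v (d * d) (Fin r → Fin d) f (fun t => mn v (cs K M * (tm d t * U))) _
      (node S π i x) z (z y) u (d ^ d) (a * ρ / E r M) (ε / ρ) η (Nat.mul_pos hd hd)
      (fun s => (f1 s).trans (Nat.mul_le_mul_right d hM.le)) (fun t => ?_)
      (Finset.filter_subset _ _) hu (one_le_pow₀ hd1) (by positivity) hη (fun x' h r' hr => ?_)
      (fun x' h => ?_) (fun x' h => ?_) ?_ (fun x' h => ?_) hC
    · simp only [mn, f2]
    · refine le_trans ?_ (ball x' (hN x' h).1 r' hr)
      exact_mod_cast Finset.card_le_card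
        (Finset.filter_subset_filter _ (Finset.filter_subset _ _))
    · have e : node S π i x' = node S π i x := by simp only [node, (hN x' h).2]
      rw [← e]
      exact par i hi x' (hN x' h).1 y hy (hxy.trans (hT.pred (hN x' h).2).symm)
    · obtain ⟨w, w1, w2⟩ := near x' (hN x' h).1
      refine ⟨w, w1, fun i => ⟨(w2 i).1, ?_⟩⟩
      obtain ⟨V, V1, V2⟩ := (w2 i).2
      rw [V2, ← Matrix.mul_assoc]
      refine (mn_mul_right v _ zero_le_one V1).trans (mul_le_mul_of_nonneg_right ?_ (mn_nonneg v _))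
      rw [mul_one]
      exact pow_le_pow_right₀ hd1 hM.le
    · rw [div_le_iff₀' hE]
      exact hay
    · have := (Finset.mem_filter.1 h).2
      rw [show ε / ρ * (a * ρ / E r M) = a * ε / E r M by field_simp, lt_div_iff₀' hE]
      exact this

end Pool.Agent.Lib.MP_a94b90_nt.U
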