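import Pool.Agent.Lib.MP_a94b90_nt.U.Bas

/-! Polynomials are good functions, by Lagrange interpolation. -/

set_option autoImplicit false

namespace Pool.Agent.Lib.MP_a94b90_nt.U

open Polynomial Finset

namespace Good

variable {K : Type} [Field K] (v : AbsoluteValue K ℝ)

theorem lag {D : ℕ} {f : K[X]} (hf : f.natDegree ≤ D) (w : Fin (D + 1) → K) (y : K) {r R b : ℝ}
    (hr : 0 < r) (hR : 0 ≤ R) (h1 : ∀ i j, i ≠ j → r ≤ v (w i - w j)) (h2 : ∀ i, v (y - w i) ≤ R)
    (h3 : ∀ i, v (f.eval (w i)) ≤ b) : v (f.eval y) ≤ ((D : ℝ) + 1) * (R / r) ^ D * b := by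
  classical
  have hb : 0 ≤ b := (v.nonneg _).trans (h3 0)
  have hinj : Set.InjOn w (univ : Finset (Fin (D + 1))) := fun i _ j _ e => by
    by_contra hne
    have := h1 i j hne
    rw [e, sub_self, map_zero] at this
    linarith
  have hd : f.degree < #(univ : Finset (Fin (D + 1))) := by
    rw [card_univ, Fintype.card_fin]
    exact degree_le_natDegree.trans_lt (by exact_mod_cast Nat.lt_succ_of_le hf)
  have e := Lagrange.eq_interpolate hinj hd
  have e2 : f.eval y = ∑ i, f.eval (w i) * ∏ j ∈ univ.erase i, ((w i - w j)⁻¹ * (y - w j)) := by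
    conv_lhs => rw [e]
    simp [Lagrange.interpolate_apply, Lagrange.basis, Lagrange.basisDivisor, eval_finsetSum,
      eval_prod]
  rw [e2]
  refine (v.sum_le _ _).trans ?_
  calc _ ≤ ∑ _i : Fin (D + 1), (R / r) ^ D * b := sum_le_sum fun i _ => by
        rw [map_mul, map_prod, mul_comm]
        refine mul_le_mul ?_ (h3 i) (v.nonneg _) (by positivity)
        calc _ ≤ ∏ _j ∈ univ.erase i, R / r := prod_le_prod (fun j _ => v.nonneg _) fun j hj => by
              rw [map_mul, map_inv₀, inv_mul_eq_div]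
              exact div_le_div₀ hR (h2 j) hr (h1 i j (ne_of_mem_erase hj).symm)
          _ = _ := by simp [div_pow]
    _ = _ := by simp [mul_assoc]

open Classical in
theorem greedy (T : Finset ℕ) (z : ℕ → K) {ρ β : ℝ} (hβ : 0 ≤ β)
    (h : ∀ x ∈ T, (#{x' ∈ T | v (z x' - z x) < ρ} : ℝ) ≤ β) (k : ℕ) :
    ((k : ℝ) - 1) * β < #T → T.Nonempty → ∃ x : Fin k → ℕ, (∀ i, x i ∈ T) ∧
      ∀ i j, i ≠ j → ρ ≤ v (z (x i) - z (x j)) := by
  induction k with
  | zero => exact fun _ _ => ⟨Fin.elim0, fun i => i.elim0, fun i => i.elim0⟩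
  | succ k ih =>
    intro hk hT
    push_cast at hk
    obtain ⟨x, h1, h2⟩ := ih (by nlinarith) hT
    have h3 : (#(univ.biUnion fun i => {x' ∈ T | v (z x' - z (x i)) < ρ}) : ℝ) < #T := by
      refine lt_of_le_of_lt ?_ hk
      calc _ ≤ ((∑ i, #{x' ∈ T | v (z x' - z (x i)) < ρ} : ℕ) : ℝ) := by exact_mod_cast card_biUnion_le
        _ ≤ ∑ _i : Fin k, β := by
            push_cast
            exact sum_le_sum fun i _ => h _ (h1 i)
        _ = _ := by simp
    obtain ⟨p, hp, hp'⟩ := exists_mem_notMem_of_card_lt_card (Nat.cast_lt.1 h3)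
    have h4 : ∀ i, ρ ≤ v (z p - z (x i)) := fun i => not_lt.1 fun hlt =>
      hp' (mem_biUnion.2 ⟨i, mem_univ _, mem_filter.2 ⟨hp, hlt⟩⟩)
    refine ⟨Fin.cons p x, fun i => Fin.cases hp h1 i, fun i j => ?_⟩
    refine Fin.cases ?_ (fun i => ?_) i <;> refine Fin.cases ?_ (fun j => ?_) j <;> intro hne
    · exact absurd rfl hne
    · exact h4 j
    · rw [v.map_sub]
      exact h4 i
    · exact h2 i j fun e => hne (congrArg _ e)

end Good

theorem goodS : GoodS := by
  classical
  intro K _ v D ι _ _ f G T Nd z y u A a κ η hD hf hG hT hu hA ha hη hball hy hnear hay hsm hc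
  by_contra hcon
  rw [not_le] at hcon
  have hD' : (1 : ℝ) ≤ D := by exact_mod_cast hD
  have hb0 : (0 : ℝ) < #T := lt_of_le_of_lt (by positivity) hcon
  have hne : T.Nonempty := card_pos.1 (by exact_mod_cast hb0)
  have hn : (1 : ℝ) ≤ #Nd := by exact_mod_cast card_pos.2 (hne.mono hT)
  have hG0 : ∀ t, 0 ≤ G t := fun t => by
    rw [hG]
    exact Real.iSup_nonneg fun _ => v.nonneg _
  have hκ : 0 < κ * a := by
    obtain ⟨x, hx⟩ := hne
    exact (hG0 _).trans_lt (hsm x hx)
  have key : ∃ w : Fin (D + 1) → K, (∀ i j, i ≠ j → #T * u / (4 * (D : ℝ) ^ 2) ≤ v (w i - w j)) ∧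
      ∀ i, v (y - w i) ≤ (D + 2) * #Nd * u ∧ G (w i) ≤ A * (κ * a) := by
    rcases le_or_gt (#T : ℝ) (2 * D) with hb | hb
    · obtain ⟨x, hx⟩ := hne
      obtain ⟨w, h1, h2⟩ := hnear x (hT hx)
      refine ⟨w, fun i j hij => le_trans ?_ (h1 i j hij), fun i => ⟨?_, (h2 i).2.trans ?_⟩⟩
      · rw [div_le_div_iff₀ (by positivity) (by positivity)]
        have : #T * u * D ≤ 2 * D * u * D := by gcongr
        nlinarith [mul_pos hu (show (0 : ℝ) < D ^ 2 by positivity)]
      · have h3 := v.sub_le y (z x) (w i)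
        rw [v.map_sub (z x)] at h3
        have h4 : D * u ≤ D * u * #Nd := le_mul_of_one_le_right (by positivity) hn
        nlinarith [hy x (hT hx), (h2 i).1]
      · exact mul_le_mul_of_nonneg_left (hsm x hx).le (by linarith)
    · obtain ⟨x, h1, h2⟩ := Good.greedy v T z (ρ := #T / (4 * D) * u) (β := 2 * (#T / (4 * D)) + 1)
        (by positivity) (fun x hx => le_trans
          (Nat.cast_le.2 (card_le_card (filter_subset_filter _ hT)))
          (hball x (hT hx) _ (by positivity))) (D + 1) (by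
            have : (D : ℝ) * (2 * (#T / (4 * D))) = #T / 2 := by field_simp; ring
            push_cast
            nlinarith) hne
      refine ⟨fun i => z (x i), fun i j hij => le_trans ?_ (h2 i j hij), fun i => ⟨?_, ?_⟩⟩
      · rw [div_mul_eq_mul_div]
        exact div_le_div_of_nonneg_left (by positivity) (by positivity) (by nlinarith)
      · have h4 : 0 ≤ D * (#Nd * u) := by positivity
        nlinarith [hy _ (hT (h1 i))]
      · exact (hsm _ (h1 i)).le.trans (le_mul_of_one_le_left hκ.le hA)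
  obtain ⟨w, h1, h2⟩ := key
  have h3 : G y ≤ ((D : ℝ) + 1) * (((D + 2) * #Nd * u) / (#T * u / (4 * (D : ℝ) ^ 2))) ^ D *
      (A * (κ * a)) := by
    rw [hG]
    refine ciSup_le fun s => Good.lag v (hf s) w y (by positivity) (by positivity) h1
      (fun i => (h2 i).1) fun i => le_trans ?_ (h2 i).2
    rw [hG]
    exact le_ciSup (f := fun s => v ((f s).eval (w i))) (Finite.bddAbove_range _) s
  have h4 : ((D : ℝ) + 2) * #Nd * u / (#T * u / (4 * (D : ℝ) ^ 2)) =
      4 * (D : ℝ) ^ 2 * (D + 2) * (#Nd / #T) := by field_simp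
  rw [h4, mul_pow] at h3
  have h5 : (η * (#Nd / #T)) ^ D < 1 := by
    refine pow_lt_one₀ (by positivity) ?_ (by omega)
    rw [← mul_div_assoc, div_lt_one hb0]
    exact hcon
  have h6 := mul_le_mul_of_nonneg_right hc (show 0 ≤ ((#Nd : ℝ) / #T) ^ D * a by positivity)
  rw [mul_pow] at h5
  nlinarith [mul_lt_mul_of_pos_right h5 ha]

end Pool.Agent.Lib.MP_a94b90_nt.U
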