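import Pool.Agent.Lib.MP_a94b90_nt.U.Tay

/-! The limit of the stages. -/

set_option autoImplicit false

namespace Pool.Agent.Lib.MP_a94b90_nt.U

open Filter Topology

namespace Lim

theorem gd_mono {d : ℕ} {c c' y : ℝ} (h : Gd d c y) (hc : c' ≤ c) : Gd d c' y := fun j Q hQ =>
  (div_le_div_of_nonneg_right hc (by positivity)).trans (h j Q hQ)

/-- The constant at stage `i`. -/
noncomputable def cc (c : ℝ) (i : ℕ) : ℝ := c * (1 + 1 / ((i : ℝ) + 1)) / 2

theorem cc_zero (c : ℝ) : cc c 0 = c := by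
  unfold cc
  push_cast
  ring

theorem half_le {c : ℝ} (hc : 0 < c) (i : ℕ) : c / 2 ≤ cc c i := by
  unfold cc
  have : (0 : ℝ) ≤ 1 / ((i : ℝ) + 1) := by positivity
  nlinarith

theorem cc_le {c : ℝ} (hc : 0 < c) (i : ℕ) : cc c i ≤ c := by
  unfold cc
  have h0 : (0 : ℝ) ≤ i := Nat.cast_nonneg i
  have : 1 / ((i : ℝ) + 1) ≤ 1 := by
    rw [div_le_one (by positivity)]
    linarith
  nlinarith

theorem cc_lt {c : ℝ} (hc : 0 < c) (i : ℕ) : cc c (i + 1) < cc c i := by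
  unfold cc
  have : 1 / (((i + 1 : ℕ) : ℝ) + 1) < 1 / ((i : ℝ) + 1) := by
    apply one_div_lt_one_div_of_lt (by positivity)
    push_cast
    linarith
  nlinarith

/-- The dyadic number of a state. -/
noncomputable def xx (t : ℤ × ℕ × ℕ) : ℝ := (t.1 : ℝ) / 2 ^ t.2.1

theorem step (h : StageS) {d : ℕ} {θ c : ℝ} (hd : 1 ≤ d) (hb : Bad d θ) (hc : 0 < c) (hc1 : c ≤ 1)
    (i : ℕ) (t : ℤ × ℕ × ℕ) (ht : 1 ≤ t.2.1 ∧ Gd d (cc c i) (θ + xx t)) :
    ∃ t' : ℤ × ℕ × ℕ, (1 ≤ t'.2.1 ∧ Gd d (cc c (i + 1)) (θ + xx t')) ∧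
      t.2.2 + 1 ≤ t'.2.2 ∧ i * t.2.1 + 2 ≤ t'.2.2 ∧ xx t < xx t' ∧
      xx t' < xx t + 1 / 2 ^ t'.2.2 := by
  obtain ⟨P, K, e⟩ := t
  obtain ⟨e0, he⟩ := h d (θ + xx (P, K, e)) (cc c i) (cc c (i + 1)) hd (hb.shift K P) ht.2
    (lt_of_lt_of_le (half_pos hc) (half_le hc _)) (cc_lt hc i) ((cc_le hc i).trans hc1)
  obtain ⟨k, p, h1, h2, h3⟩ := he (e0 + (e + 1) + (i * K + 2)) (by omega)
  have ex : xx (P * 2 ^ k + p * 2 ^ K, K + k, e0 + (e + 1) + (i * K + 2)) =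
      xx (P, K, e) + (p : ℝ) / 2 ^ k := by
    simp only [xx]
    push_cast
    rw [pow_add]
    field_simp
  refine ⟨(P * 2 ^ k + p * 2 ^ K, K + k, e0 + (e + 1) + (i * K + 2)), ⟨?_, ?_⟩, ?_, ?_, ?_, ?_⟩
  · have := ht.1
    simp only at this ⊢
    omega
  · rw [ex, ← add_assoc]
    exact h3
  · simp only
    omega
  · simp only
    omega
  · rw [ex]
    have : (0 : ℝ) < 1 / 2 ^ (e0 + (e + 1) + (i * K + 2) + 1) := by positivity
    linarith
  · rw [ex]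
    linarith

end Lim

open Lim in
theorem limS (h : StageS) : LimS := by
  intro d θ hd hb
  obtain ⟨c1, hc1, hB⟩ := id hb
  have hc : 0 < min c1 1 := lt_min hc1 one_pos
  generalize hcd : min c1 1 = c at hc
  have hcc : c ≤ c1 := hcd ▸ min_le_left _ _
  have hco : c ≤ 1 := hcd ▸ min_le_right _ _
  choose! f hf using step h hd hb hc hco
  let s : ℕ → ℤ × ℕ × ℕ := fun n => Nat.rec (0, 1, 0) (fun i t => f i t) n
  have hs : ∀ i, s (i + 1) = f i (s i) := fun i => rfl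
  have inv : ∀ i, 1 ≤ (s i).2.1 ∧ Gd d (cc c i) (θ + xx (s i)) := by
    intro i
    induction i with
    | zero =>
      refine ⟨le_rfl, fun j Q hQ => ?_⟩
      have e : xx (s 0) = 0 := by simp [s, xx]
      rw [e, add_zero, cc_zero]
      refine (div_le_self hc.le (one_le_pow₀ ?_)).trans (hcc.trans (hB j Q hQ))
      have : (0 : ℝ) ≤ j := Nat.cast_nonneg j
      linarith
    | succ i ih => exact (hf i (s i) ih).1
  have r1 : ∀ i, (s i).2.2 + 1 ≤ (s (i + 1)).2.2 := fun i => (hf i (s i) (inv i)).2.1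
  have r2 : ∀ i, i * (s i).2.1 + 2 ≤ (s (i + 1)).2.2 := fun i => (hf i (s i) (inv i)).2.2.1
  have r3 : ∀ i, xx (s i) < xx (s (i + 1)) := fun i => (hf i (s i) (inv i)).2.2.2.1
  have r4 : ∀ i, xx (s (i + 1)) < xx (s i) + 1 / 2 ^ (s (i + 1)).2.2 :=
    fun i => (hf i (s i) (inv i)).2.2.2.2
  have mono : Monotone fun i => xx (s i) := monotone_nat_of_le_succ fun i => (r3 i).le
  have anti : Antitone fun i => xx (s i) + 2 / 2 ^ (s (i + 1)).2.2 := by
    refine antitone_nat_of_succ_le fun i => ?_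
    have a1 : (2 : ℝ) / 2 ^ (s (i + 1 + 1)).2.2 ≤ 2 / 2 ^ ((s (i + 1)).2.2 + 1) :=
      div_le_div_of_nonneg_left (by norm_num) (by positivity)
        (pow_le_pow_right₀ one_le_two (r1 (i + 1)))
    have a2 : (2 : ℝ) / 2 ^ ((s (i + 1)).2.2 + 1) = 1 / 2 ^ (s (i + 1)).2.2 := by
      rw [pow_succ]
      field_simp
    have a3 : (2 : ℝ) / 2 ^ (s (i + 1)).2.2 = 2 * (1 / 2 ^ (s (i + 1)).2.2) := by ring
    have := r4 i
    linarith
  have ub : ∀ i m, xx (s m) ≤ xx (s i) + 2 / 2 ^ (s (i + 1)).2.2 := by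
    intro i m
    have a1 := mono (le_max_left m i)
    have a2 := anti (le_max_right m i)
    have a3 : (0 : ℝ) ≤ 2 / 2 ^ (s (max m i + 1)).2.2 := by positivity
    simp only at a1 a2
    linarith
  have bdd : BddAbove (Set.range fun i => xx (s i)) := ⟨_, by
    rintro _ ⟨m, rfl⟩
    exact ub 0 m⟩
  set L := ⨆ i, xx (s i) with hL
  have l1 : ∀ i, xx (s i) < L := fun i => (r3 i).trans_le (le_ciSup bdd (i + 1))
  have l2 : ∀ i, |L - xx (s i)| < 1 / 2 ^ (i * (s i).2.1) := by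
    intro i
    have a1 : L ≤ xx (s i) + 2 / 2 ^ (s (i + 1)).2.2 := ciSup_le (ub i)
    have a2 : (2 : ℝ) / 2 ^ (s (i + 1)).2.2 ≤ 2 / 2 ^ (i * (s i).2.1 + 2) :=
      div_le_div_of_nonneg_left (by norm_num) (by positivity)
        (pow_le_pow_right₀ one_le_two (r2 i))
    have a3 : (2 : ℝ) / 2 ^ (i * (s i).2.1 + 2) = 1 / 2 * (1 / 2 ^ (i * (s i).2.1)) := by
      rw [pow_add]
      field_simp
    have a4 : (0 : ℝ) < 1 / 2 ^ (i * (s i).2.1) := by positivity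
    rw [abs_of_pos (sub_pos.2 (l1 i))]
    linarith
  have l3 : ∀ i, |L - xx (s i)| ≤ (1 / 2) ^ i := by
    intro i
    refine (l2 i).le.trans ?_
    rw [one_div_pow]
    exact one_div_le_one_div_of_le (by positivity)
      (pow_le_pow_right₀ one_le_two (Nat.le_mul_of_pos_right i (inv i).1))
  refine ⟨θ + L, c / 2, half_pos hc, fun n => ?_, fun j Q hQ => ?_⟩
  · have eb : (((2 : ℤ) ^ (s n).2.1 : ℤ) : ℝ) = 2 ^ (s n).2.1 := by push_cast; rfl
    refine ⟨(s n).1, 2 ^ (s n).2.1, one_lt_pow₀ one_lt_two (by have := (inv n).1; omega), ?_, ?_⟩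
    · rw [eb, add_sub_cancel_left]
      exact (l1 n).ne'
    · rw [eb, add_sub_cancel_left, ← pow_mul, mul_comm]
      exact l2 n
  · have lim : Tendsto (fun i : ℕ => (1 + d * (2 ^ d * 2 ^ (d * j) * (1 / 2 : ℝ) ^ i)) *
        nrm d j (θ + L) Q) atTop (𝓝 ((1 + d * (2 ^ d * 2 ^ (d * j) * 0)) * nrm d j (θ + L) Q)) :=
      ((((tendsto_pow_atTop_nhds_zero_of_lt_one (by norm_num) (by norm_num)).const_mul
        _).const_mul _).const_add _).mul_const _
    simp only [mul_zero, add_zero, one_mul] at lim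
    refine ge_of_tendsto' lim fun i => ?_
    have a1 := gd_mono (inv i).2 (half_le hc i) j Q hQ
    have a2 := nrm_le d j (θ + xx (s i)) (s := L - xx (s i))
      ((l3 i).trans (pow_le_one₀ (by norm_num) (by norm_num))) Q
    rw [show θ + xx (s i) + (L - xx (s i)) = θ + L by ring] at a2
    refine a1.trans (a2.trans (mul_le_mul_of_nonneg_right ?_ (nrm_nonneg _ _ _ _)))
    have := l3 i
    gcongr

end Pool.Agent.Lib.MP_a94b90_nt.U
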