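import Pool.Agent.Lib.MP_a94b90_nt.U.St

/-! The inequality of Liouville, by an integer matrix with eigenvector `(θ ^ i)`. -/

set_option autoImplicit false

namespace Pool.Agent.Lib.MP_a94b90_nt.U

open Matrix Polynomial

namespace Liou

theorem tab {n : ℕ} {θ : ℝ} (h : IsAlgebraic ℚ θ) (hn : (minpoly ℚ θ).natDegree = n + 1) :
    ∃ (D : ℤ) (c : Fin (n + 1) → Fin (n + 1) → Fin (n + 1) → ℤ), D ≠ 0 ∧ ∀ b i : Fin (n + 1),
      ∑ j, (c b i j : ℝ) * θ ^ (j : ℕ) = D * θ ^ (b : ℕ) * θ ^ (i : ℕ) := by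
  have h1 : minpoly ℚ θ ≠ 1 := fun e => by simp [e] at hn
  obtain ⟨D, hD⟩ := IsLocalization.exist_integer_multiples_of_finite (nonZeroDivisors ℤ)
    fun t : Fin (n + 1) × Fin (n + 1) × Fin (n + 1) =>
      ((X ^ ((t.1 : ℕ) + t.2.1) %ₘ minpoly ℚ θ).coeff t.2.2 : ℚ)
  choose c hc using hD
  refine ⟨D, fun b i j => c (b, i, j), nonZeroDivisors.coe_ne_zero D, fun b i => ?_⟩
  have e := aeval_eq_sum_range' (hn ▸ natDegree_modByMonic_lt (X ^ ((b : ℕ) + i))
    (minpoly.monic h.isIntegral) h1) θ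
  rw [minpoly.aeval_modByMonic_minpoly, map_pow, aeval_X, Finset.sum_range] at e
  rw [mul_assoc, ← pow_add, e, Finset.mul_sum]
  refine Finset.sum_congr rfl fun j _ => ?_
  have := congrArg (fun x : ℚ => (x : ℝ)) (hc (b, i, j))
  simp only [eq_intCast, zsmul_eq_mul, Rat.cast_intCast, Rat.cast_mul] at this
  rw [this, Rat.smul_def, mul_assoc]

theorem ind {n : ℕ} {θ : ℝ} (hn : (minpoly ℚ θ).natDegree = n + 1) {Q : Fin (n + 1) → ℤ}
    (hQ : Q ≠ 0) : ∑ b, (Q b : ℝ) * θ ^ (b : ℕ) ≠ 0 := by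
  have h : LinearIndependent ℚ fun i : Fin (n + 1) => θ ^ (i : ℕ) :=
    hn ▸ linearIndependent_pow (K := ℚ) θ
  refine fun e => hQ (funext fun b => ?_)
  have := Fintype.linearIndependent_iff.1 h (fun b => (Q b : ℚ))
    (by simpa [Rat.smul_def] using e) b
  simpa using this

theorem key {n : ℕ} (M : Matrix (Fin (n + 1)) (Fin (n + 1)) ℝ) (v : Fin (n + 1) → ℝ) {q B : ℝ}
    (h0 : v 0 = 1) (h : M *ᵥ v = q • v) (hB : ∀ i j, |M i j| ≤ B) :
    |M.det| ≤ |q| * B ^ n * (n.factorial * ∑ j, |v j|) := by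
  have e : M.det = q * ∑ j, M.adjugate 0 j * v j := by
    have := congrFun (congrArg (M.adjugate *ᵥ ·) h) 0
    simp only [mulVec_mulVec, adjugate_mul, smul_mulVec, one_mulVec, mulVec_smul, Pi.smul_apply,
      h0, smul_eq_mul, mul_one] at this
    exact this
  rw [e, abs_mul, mul_assoc, Finset.mul_sum, Finset.mul_sum]
  gcongr
  refine (Finset.abs_sum_le_sum_abs _ _).trans (Finset.sum_le_sum fun j _ => ?_)
  have := det_le (A := M.submatrix j.succAbove (0 : Fin (n + 1)).succAbove)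
    (abv := AbsoluteValue.abs) fun a b => hB _ _
  rw [Fintype.card_fin, nsmul_eq_mul, mul_comm] at this
  rw [abs_mul, adjugate_fin_succ_eq_det_submatrix, abs_mul, abs_pow, abs_neg, abs_one, one_pow,
    one_mul, ← mul_assoc]
  exact mul_le_mul_of_nonneg_right this (abs_nonneg _)

end Liou

theorem liouS : LiouS := by
  intro n θ h hn
  obtain ⟨D, c, hD, hc⟩ := Liou.tab h hn
  set C : ℝ := ∑ b, ∑ i, ∑ j, |(c b i j : ℝ)|
  set T : ℝ := n.factorial * ∑ j : Fin (n + 1), |θ ^ (j : ℕ)|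
  have hC : 0 ≤ C := by positivity
  have hT : 0 ≤ T := by positivity
  refine ⟨1 / (|(D : ℝ)| * C ^ n * T + 1), by positivity, fun Q hQ H hH => ?_⟩
  have hH0 : 0 ≤ H := (abs_nonneg _).trans (hH 0)
  set q := ∑ b, (Q b : ℝ) * θ ^ (b : ℕ) with hq
  let M : Matrix (Fin (n + 1)) (Fin (n + 1)) ℤ := Matrix.of fun i j => ∑ b, Q b * c b i j
  have hM : M.map (Int.cast : ℤ → ℝ) *ᵥ (fun i => θ ^ (i : ℕ)) =
      (D * q) • fun i : Fin (n + 1) => θ ^ (i : ℕ) := by
    ext i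
    simp only [mulVec, dotProduct, map_apply, M, of_apply, Int.cast_sum, Int.cast_mul,
      Finset.sum_mul, Pi.smul_apply, smul_eq_mul, hq, Finset.mul_sum]
    rw [Finset.sum_comm]
    refine Finset.sum_congr rfl fun b _ => ?_
    simp only [mul_assoc, ← Finset.mul_sum, hc]
    ring
  have h1 : M.det ≠ 0 := fun e => by
    obtain ⟨w, w0, hw⟩ := exists_vecMul_eq_zero_iff.2 e
    have h2 : (fun i => (w i : ℝ)) ᵥ* M.map (Int.cast : ℤ → ℝ) = 0 := by
      ext j
      have := congrArg (Int.cast : ℤ → ℝ) (congrFun hw j)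
      simpa [vecMul, dotProduct] using this
    have h3 := congrArg ((fun i => (w i : ℝ)) ⬝ᵥ ·) hM
    simp only [dotProduct_mulVec, h2, zero_dotProduct, dotProduct_smul, smul_eq_mul] at h3
    exact mul_ne_zero (mul_ne_zero (Int.cast_ne_zero.2 hD) (Liou.ind hn hQ)) (Liou.ind hn w0)
      h3.symm
  have h2 := Liou.key _ _ (pow_zero θ) hM (B := H * C) fun i j => by
    simp only [map_apply, M, of_apply, Int.cast_sum, Int.cast_mul, C]
    rw [Finset.mul_sum]
    refine (Finset.abs_sum_le_sum_abs _ _).trans (Finset.sum_le_sum fun b _ => ?_)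
    rw [abs_mul]
    refine mul_le_mul (hH b) ?_ (abs_nonneg _) hH0
    exact (Finset.single_le_sum (f := fun j => |(c b i j : ℝ)|) (fun _ _ => abs_nonneg _)
      (Finset.mem_univ j)).trans (Finset.single_le_sum (f := fun i => ∑ j, |(c b i j : ℝ)|)
        (fun _ _ => by positivity) (Finset.mem_univ i))
  have h3 : (1 : ℝ) ≤ |(M.map (Int.cast : ℤ → ℝ)).det| := by
    rw [← Int.cast_det]
    exact_mod_cast Int.one_le_abs h1
  have h4 : 0 ≤ |q| * H ^ n := by positivity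
  rw [div_le_iff₀ (by positivity)]
  rw [abs_mul, mul_pow] at h2
  nlinarith

end Pool.Agent.Lib.MP_a94b90_nt.U
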