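import Pool.Agent.Lib.MP_a94b90_nt.U.Tay

/-! The count in a real window. -/

set_option autoImplicit false

namespace Pool.Agent.Lib.MP_a94b90_nt.U

open Matrix

namespace RealJ

theorem tree (a : ℕ) : IsTree (Finset.range (2 ^ a)) (fun i p => p / 2 ^ (a - i)) a := by
  refine ⟨fun x hx y hy => ?_, fun i x y h => ?_, fun x _ y _ h => ?_⟩
  · simp only [Nat.sub_zero]
    rw [Nat.div_eq_of_lt (Finset.mem_range.1 hx), Nat.div_eq_of_lt (Finset.mem_range.1 hy)]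
  · have e : a - i = a - (i + 1) + (a - i - (a - (i + 1))) := by omega
    simp only at h ⊢
    rw [e, pow_add, ← Nat.div_div_eq_div_mul, ← Nat.div_div_eq_div_mul, h]
  · simpa using h

theorem dst (α : ℝ) (k : ℕ) (x y : ℝ) :
    av (α + y / 2 ^ k - (α + x / 2 ^ k)) = |y - x| * (1 / 2 ^ k) := by
  have h : (0 : ℝ) < 1 / 2 ^ k := by positivity
  rw [av_apply, ← abs_of_pos h, ← abs_mul]
  congr 1
  ring

theorem ball (x : ℕ) {r : ℝ} (hr : 0 < r) (T : Finset ℕ)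
    (hT : ∀ y ∈ T, |(y : ℝ) - x| < r) : (T.card : ℝ) ≤ 2 * r + 1 := by
  have h1 : T ⊆ Finset.Icc (x - ⌊r⌋₊) (x + ⌊r⌋₊) := fun y hy => by
    obtain ⟨h2, h3⟩ := abs_lt.1 (hT y hy)
    have h4 := Nat.lt_floor_add_one r
    have h5 : (x : ℝ) < (y + ⌊r⌋₊ + 1 : ℕ) := by push_cast; linarith
    have h6 : (y : ℝ) < (x + ⌊r⌋₊ + 1 : ℕ) := by push_cast; linarith
    have h7 := Nat.cast_lt.1 h5
    have h8 := Nat.cast_lt.1 h6
    rw [Finset.mem_Icc]
    omega
  have h2 := Finset.card_le_card h1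
  rw [Nat.card_Icc] at h2
  have h3 : T.card ≤ 2 * ⌊r⌋₊ + 1 := by omega
  have h4 : (T.card : ℝ) ≤ 2 * ⌊r⌋₊ + 1 := by exact_mod_cast h3
  have h5 := Nat.floor_le hr.le
  linarith

theorem node_ge (a i x : ℕ) (hi : i ≤ a) (hx : x < 2 ^ a) :
    2 ^ (a - i) ≤ (node (Finset.range (2 ^ a)) (fun i p => p / 2 ^ (a - i)) i x).card := by
  have hm : 0 < 2 ^ (a - i) := by positivity
  have e : 2 ^ a = 2 ^ i * 2 ^ (a - i) := by rw [← pow_add]; congr 1; omega
  have hq : x / 2 ^ (a - i) < 2 ^ i := by rw [Nat.div_lt_iff_lt_mul hm, ← e]; exact hx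
  have h1 : Finset.Ico (x / 2 ^ (a - i) * 2 ^ (a - i)) ((x / 2 ^ (a - i) + 1) * 2 ^ (a - i)) ⊆
      node (Finset.range (2 ^ a)) (fun i p => p / 2 ^ (a - i)) i x := fun y hy => by
    rw [Finset.mem_Ico] at hy
    simp only [node, Finset.mem_filter, Finset.mem_range]
    refine ⟨hy.2.trans_le ?_, Nat.div_eq_of_lt_le hy.1 hy.2⟩
    calc _ ≤ 2 ^ i * 2 ^ (a - i) := Nat.mul_le_mul_right _ hq
      _ = _ := e.symm
  have h2 := Finset.card_le_card h1
  rw [Nat.card_Ico, add_mul, one_mul, Nat.add_sub_cancel_left] at h2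
  exact h2

theorem close {m x y : ℕ} (hm : 0 < m) (h : y / m = x / m) : |(y : ℝ) - x| ≤ m := by
  have h1 := Nat.div_add_mod x m
  have h2 := Nat.div_add_mod y m
  have h3 := Nat.mod_lt x hm
  have h4 := Nat.mod_lt y hm
  rw [h] at h2
  have h5 : y ≤ x + m := by omega
  have h6 : x ≤ y + m := by omega
  have h7 : (y : ℝ) ≤ x + m := by exact_mod_cast h5
  have h8 : (x : ℝ) ≤ y + m := by exact_mod_cast h6
  rw [abs_le]
  constructor <;> linarith

end RealJ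

open RealJ in
theorem realS (h1 : CountS) (h2 : RootS) : RealS := by
  classical
  rintro d α hd ⟨c0, hc0, hb⟩
  have hd1 : (1 : ℝ) ≤ d := by exact_mod_cast hd
  have hD : 1 ≤ d * d := Nat.mul_pos hd hd
  have hD1 : (1 : ℝ) ≤ (d * d : ℕ) := by exact_mod_cast hD
  obtain ⟨c, hc, hc1, hcc⟩ : ∃ c : ℝ, 0 < c ∧ c ≤ 1 ∧ c ≤ c0 :=
    ⟨min c0 1, lt_min hc0 one_pos, min_le_right _ _, min_le_left _ _⟩
  obtain ⟨ρ, hρ⟩ : ∃ ρ : ℝ, ρ = (c / d) ^ d := ⟨_, rfl⟩
  have hρ0 : 0 < ρ := by rw [hρ]; positivity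
  have hρ1 : ρ ≤ 1 := by
    rw [hρ]
    exact pow_le_one₀ (by positivity) ((div_le_one (by positivity)).2 (hc1.trans hd1))
  obtain ⟨B, hB⟩ : ∃ B : ℝ, B = (((d * d : ℕ) : ℝ) + 1) *
      (4 * ((d * d : ℕ) : ℝ) ^ 2 * ((d * d : ℕ) + 2)) ^ (d * d) * (d : ℝ) ^ d := ⟨_, rfl⟩
  have hB1 : 1 ≤ B := by
    rw [hB]
    refine one_le_mul_of_one_le_of_one_le (one_le_mul_of_one_le_of_one_le (by linarith)
      (one_le_pow₀ ?_)) (one_le_pow₀ hd1)
    have := one_le_pow₀ hD1 (n := 2)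
    nlinarith
  have hq : 1 ≤ d / ρ := (one_le_div hρ0).2 (hρ1.trans hd1)
  have hC0 : 1 ≤ B * (d / ρ) := one_le_mul_of_one_le_of_one_le hB1 hq
  refine ⟨(d + 1) * (B * (d / ρ)), by positivity, fun j k a hC hk => ?_⟩
  have hJ : (1 : ℝ) ≤ ((j : ℝ) + 1) ^ 2 := one_le_pow₀ (by linarith [(Nat.cast_nonneg j : (0 : ℝ) ≤ j)])
  have hJ2 : ((j : ℝ) + 1) ^ 2 ≤ ((j : ℝ) + 1) ^ (2 * (d * d)) := by
    rw [pow_mul]
    exact le_self_pow₀ hJ (by omega)
  have hu : (0 : ℝ) < 1 / 2 ^ k := by positivity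
  have hkR : ((d * d : ℕ) : ℝ) * 2 ^ d * 2 ^ (d * j) ≤ 2 ^ k := by exact_mod_cast hk
  have key := h1 ℝ av d (Finset.range (2 ^ a)) (fun i p => p / 2 ^ (a - i)) a
    (fun p => α + p / 2 ^ k) (diagonal (wt d j)) (fun _ _ => 1) (fun _ => 1) (1 / 2 ^ k)
    (d / ((j : ℝ) + 1) ^ (2 * (d * d))) ρ (B * (d / ρ) / ((j : ℝ) + 1) ^ 2) hd hu (by positivity)
    ?_ hρ1 (by positivity) (tree a) (fun _ _ => zero_le_one) (fun _ => le_rfl)
    (fun _ => zero_le_one) (fun _ _ _ _ _ => ⟨1, zero_le_one, (one_mul _).symm⟩)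
    (fun _ _ _ _ => (one_mul _).ge) ?_ ?_ ?_ ?_ ?_
  · have h3 : bd d α j k (2 ^ a) ⊆ (Finset.range (2 ^ a)).filter fun x : ℕ => ∃ Q, Q ≠ 0 ∧
        (d : ℝ) * 1 * vn av (cv ℝ Q ᵥ* (tm d (α + x / 2 ^ k) * diagonal (wt d j))) <
          d / ((j : ℝ) + 1) ^ (2 * (d * d)) := fun x hx => by
      obtain ⟨h4, Q, h5, h6⟩ := Finset.mem_filter.1 hx
      refine Finset.mem_filter.2 ⟨h4, Q, h5, ?_⟩
      rw [mul_one, div_eq_mul_one_div (d : ℝ)]
      exact mul_lt_mul_of_pos_left h6 (by positivity)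
    have h4 : ((bd d α j k (2 ^ a)).card : ℝ) ≤ _ := Nat.cast_le.2 (Finset.card_le_card h3)
    refine h4.trans ((le_of_eq ?_).trans (key.trans (le_of_eq ?_)))
    · congr
    · rw [Finset.card_range]
      push_cast
      ring
  · rw [div_le_iff₀ (by positivity), ← div_le_iff₀' hρ0]
    have h3 : 0 ≤ (d : ℝ) / ρ := by positivity
    have h4 : (d : ℝ) / ρ ≤ B * (d / ρ) := le_mul_of_one_le_left h3 hB1
    have h5 : B * (d / ρ) ≤ (d + 1) * (B * (d / ρ)) :=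
      le_mul_of_one_le_left (by positivity) (by linarith)
    linarith
  · intro x _ r hr
    refine ball x hr _ fun y hy => ?_
    have h3 := (Finset.mem_filter.1 hy).2
    rw [dst] at h3
    exact lt_of_mul_lt_mul_right h3 hu.le
  · intro i hi x hx y _ h
    rw [dst]
    refine mul_le_mul_of_nonneg_right ((close (by positivity) h).trans ?_) hu.le
    have h3 := node_ge a i x hi (Finset.mem_range.1 hx)
    have h4 : 2 ^ (a - (i - 1)) ≤ 2 * 2 ^ (a - i) := by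
      rw [← pow_succ']
      exact Nat.pow_le_pow_right two_pos (by omega)
    exact_mod_cast h4.trans (Nat.mul_le_mul_left 2 h3)
  · intro x _
    refine ⟨fun i => α + x / 2 ^ k + (i : ℕ) / 2 ^ k, fun i i' hi => ?_, fun i => ?_⟩
    · rw [dst]
      have h3 : (1 : ℝ) ≤ |((i : ℕ) : ℝ) - (i' : ℕ)| := by
        have h4 : (((i : ℕ) : ℤ) - (i' : ℕ)) ≠ 0 := fun h => hi (Fin.ext (by omega))
        exact_mod_cast Int.one_le_abs h4
      exact (div_le_self hu.le hD1).trans (le_mul_of_one_le_left hu.le h3)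
    · have h3 : ((i : ℕ) : ℝ) ≤ (d * d : ℕ) := by exact_mod_cast Nat.lt_succ_iff.1 i.2
      have h4 : |((i : ℕ) : ℝ) / 2 ^ k| ≤ (d * d : ℕ) * (1 / 2 ^ k) := by
        rw [abs_of_nonneg (by positivity), div_eq_mul_one_div]
        exact mul_le_mul_of_nonneg_right h3 hu.le
      have h5 : (2 : ℝ) ^ d * 2 ^ (d * j) * ((d * d : ℕ) * (1 / 2 ^ k)) ≤ 1 := by
        rw [← mul_assoc, mul_one_div, div_le_one (by positivity)]
        linarith
      have h6 : (1 : ℝ) ≤ 2 ^ d * 2 ^ (d * j) :=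
        one_le_mul_of_one_le_of_one_le (one_le_pow₀ one_le_two) (one_le_pow₀ one_le_two)
      have h7 : |((i : ℕ) : ℝ) / 2 ^ k| ≤ 1 :=
        h4.trans ((le_mul_of_one_le_left (by positivity) h6).trans h5)
      refine ⟨by rw [add_sub_cancel_left, av_apply]; exact h4,
        vm d j ((i : ℕ) / 2 ^ k), fun b e => ?_, am_add d j _ _⟩
      rw [av_apply]
      by_cases h8 : b = e
      · rw [h8, vm_diag, abs_one]
      · exact (vm_off d j h7 h8).trans
          ((mul_le_mul_of_nonneg_left h4 (by positivity)).trans h5)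
  · refine ⟨0, Finset.mem_range.2 (by positivity), fun r M hM => ?_⟩
    rw [one_mul, hρ, Nat.cast_zero, zero_div, add_zero]
    exact h2 d (am d j α) c hd (am_det d j α) hc hc1 (fun Q hQ => hcc.trans (hb j Q hQ)) r M hM
  · rw [← hB, div_pow, ← pow_mul, div_right_comm, ← mul_div_assoc]
    exact div_le_div_of_nonneg_right (le_self_pow₀ hC0 (by omega)) (by positivity)

end Pool.Agent.Lib.MP_a94b90_nt.U
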