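import Pool.Agent.Lib.MP_a94b90_nt.U.Bas

/-! No short vector gives no sublattice of small covolume. -/

set_option autoImplicit false

namespace Pool.Agent.Lib.MP_a94b90_nt.U

open Matrix MeasureTheory Set

namespace Root

/-- The linear forms theorem of Minkowski with an open box. -/
theorem mink {r : ℕ} (G : Matrix (Fin r) (Fin r) ℝ) {b : ℝ} (hb : 0 < b) (h0 : G.det ≠ 0)
    (h : |G.det| < b ^ r) : ∃ c : Fin r → ℤ, c ≠ 0 ∧ ∀ i, |(cv ℝ c ᵥ* G) i| < b := by
  have hdet : LinearMap.det (Matrix.toLin' Gᵀ) = G.det := by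
    rw [LinearMap.det_toLin', det_transpose]
  let B : Set (Fin r → ℝ) := Set.pi univ fun _ => Ioo (-b) b
  have hB : Convex ℝ B := convex_pi fun _ _ => convex_Ioo _ _
  have : Countable (Submodule.span ℤ (range (Pi.basisFun ℝ (Fin r)))).toAddSubgroup :=
    inferInstanceAs (Countable (Submodule.span ℤ (range (Pi.basisFun ℝ (Fin r)))))
  have hp : 0 < |G.det| := abs_pos.2 h0
  obtain ⟨x, hx0, hx⟩ := exists_ne_zero_mem_lattice_of_measure_mul_two_pow_lt_measure
    (ZSpan.isAddFundamentalDomain' (Pi.basisFun ℝ (Fin r)) volume) (s := Matrix.toLin' Gᵀ ⁻¹' B)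
    (fun x hx i hi => by
      have := hx i hi
      rw [map_neg, Pi.neg_apply]
      exact ⟨by linarith [this.2], by linarith [this.1]⟩)
    (hB.linear_preimage _) (by
      rw [Measure.addHaar_preimage_linearMap _ (by rw [hdet]; exact h0), hdet,
        ZSpan.fundamentalDomain_pi_basisFun, volume_pi_pi, volume_pi_pi]
      simp only [Real.volume_Ico, Real.volume_Ioo, Finset.prod_const, Finset.card_univ,
        Fintype.card_fin, Module.finrank_fin_fun, sub_zero, ENNReal.ofReal_one, one_pow, one_mul]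
      rw [← ENNReal.ofReal_pow (by linarith), ← ENNReal.ofReal_mul (abs_nonneg _),
        ← ENNReal.ofReal_ofNat 2, ← ENNReal.ofReal_pow (by norm_num),
        ENNReal.ofReal_lt_ofReal_iff
          (mul_pos (abs_pos.2 (inv_ne_zero h0)) (pow_pos (by linarith) _)),
        abs_inv, inv_mul_eq_div, lt_div_iff₀ hp, show b - -b = 2 * b by ring, mul_pow]
      exact mul_lt_mul_of_pos_left h (by positivity))
  obtain ⟨v, hv⟩ := (Submodule.mem_span_range_iff_exists_fun ℤ).1 x.2
  have hv' : (x : Fin r → ℝ) = cv ℝ v := funext fun i => by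
    rw [← hv]
    simp [Finset.sum_apply, Pi.single_apply, cv]
  refine ⟨v, fun h1 => hx0 (Subtype.ext (funext fun i => by rw [hv', h1]; simp [cv])), fun i => ?_⟩
  have := abs_lt.2 (hx i (mem_univ i))
  rwa [Matrix.toLin'_apply, hv', mulVec_transpose] at this

/-- The rule of Cramer with a largest minor. -/
theorem cram {r d : ℕ} (B : Matrix (Fin r) (Fin d) ℝ) (s : Fin r → Fin d)
    (h0 : (B.submatrix id s).det ≠ 0) (hs : av (B.submatrix id s).det = mn av B) (a : Fin d) :
    ∃ y : Fin r → ℝ, (∀ k, |y k| ≤ 1) ∧ ∀ w : Fin r → ℝ,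
      (w ᵥ* B) a = ∑ k, (w ᵥ* B.submatrix id s) k * y k := by
  set G := B.submatrix id s with hG
  refine ⟨(G.det)⁻¹ • cramer G fun i => B i a, fun k => ?_, fun w => ?_⟩
  · have e : G.updateCol k (fun i => B i a) = B.submatrix id (Function.update s k a) := by
      ext i j
      by_cases hj : j = k
      · subst hj
        simp
      · simp [hj, hG]
    have h1 := le_mn av B (Function.update s k a)
    rw [← hs, av_apply, av_apply] at h1
    rw [Pi.smul_apply, cramer_apply, e, smul_eq_mul, abs_mul, abs_inv, inv_mul_eq_div,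
      div_le_one (abs_pos.2 h0)]
    exact h1
  · have h1 : G *ᵥ ((G.det)⁻¹ • cramer G fun i => B i a) = fun i => B i a := by
      rw [mulVec_smul, mulVec_cramer, smul_smul, inv_mul_cancel₀ h0, one_smul]
    have h2 := dotProduct_mulVec w G ((G.det)⁻¹ • cramer G fun i => B i a)
    rw [h1] at h2
    exact h2

end Root

theorem rootS : RootS := by
  intro d A c hd hA hc hc1 hQ r M hM
  have hd' : (1 : ℝ) ≤ d := by exact_mod_cast hd
  have hb : 0 < c / d := by positivity
  have hb1 : c / d ≤ 1 := by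
    rw [div_le_one (by linarith)]
    linarith
  rcases Nat.eq_zero_or_pos r with rfl | hr
  · rw [mn_zero]
    exact pow_le_one₀ hb.le hb1
  obtain ⟨s, hs⟩ := exists_mn av hd (cs ℝ M * A)
  have h0 : ((cs ℝ M * A).submatrix id s).det ≠ 0 := by
    intro h0
    obtain ⟨t, ht⟩ := (ind_iff M).1 hM
    have e : cs ℝ M = cs ℝ M * A * A⁻¹ := by
      rw [Matrix.mul_assoc, mul_nonsing_inv _ (isUnit_iff_ne_zero.2 hA), Matrix.mul_one]
    have h1 : ((cs ℝ M).submatrix id t).det = 0 := by
      rw [e, det_mul_sub]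
      refine Finset.sum_eq_zero fun u _ => ?_
      have h2 := le_mn av (cs ℝ M * A) u
      rw [← hs, h0, map_zero, av_apply] at h2
      rw [abs_nonpos_iff.1 h2, mul_zero]
    rw [cs_det] at h1
    exact ht (by exact_mod_cast h1)
  by_contra hlt
  have h1 : |((cs ℝ M * A).submatrix id s).det| < (c / d) ^ r := by
    rw [← av_apply, hs]
    exact (not_le.1 hlt).trans_le (pow_le_pow_of_le_one hb.le hb1 hM.le)
  obtain ⟨q, q0, hq⟩ := Root.mink _ hb h0 h1
  have h2 := hQ _ (hM.vecMul_ne q0)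
  obtain ⟨a, ha⟩ := exists_vn av hd (cv ℝ (q ᵥ* M) ᵥ* A)
  obtain ⟨y, y1, hy⟩ := Root.cram _ s h0 hs a
  rw [← ha, av_apply, cv_vecMul, vecMul_vecMul, hy] at h2
  have : Nonempty (Fin r) := ⟨⟨0, hr⟩⟩
  have h3 : ∑ k, |(cv ℝ q ᵥ* (cs ℝ M * A).submatrix id s) k * y k| < ∑ _k : Fin r, c / d :=
    Finset.sum_lt_sum_of_nonempty Finset.univ_nonempty fun k _ => by
      rw [abs_mul]
      exact (mul_le_of_le_one_right (abs_nonneg _) (y1 k)).trans_lt (hq k)
  have h4 : ∑ _k : Fin r, c / d ≤ c := by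
    have : (r : ℝ) ≤ d := by exact_mod_cast hM.le
    rw [Finset.sum_const, Finset.card_univ, Fintype.card_fin, nsmul_eq_mul, ← mul_div_assoc,
      div_le_iff₀ (by linarith)]
    nlinarith
  linarith [Finset.abs_sum_le_sum_abs
    (fun k => (cv ℝ q ᵥ* (cs ℝ M * A).submatrix id s) k * y k) Finset.univ]

end Pool.Agent.Lib.MP_a94b90_nt.U
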