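import Pool.Agent.Lib.MP_a94b90_nt.U.Bas

/-! Removing the power of `2` that divides all maximal minors. -/

set_option autoImplicit false

namespace Pool.Agent.Lib.MP_a94b90_nt.U

open Matrix

namespace Root2

variable {r d : ℕ}

/-- If all minors are even, a row can be replaced by half of a sum of rows. -/
theorem halve (M : Matrix (Fin r) (Fin d) ℤ)
    (h : ∀ s : Fin r → Fin d, (2 : ℤ) ∣ (M.submatrix id s).det) :
    ∃ (M' : Matrix (Fin r) (Fin d) ℤ) (g : Matrix (Fin r) (Fin r) ℚ),
      cs ℚ M' = g * cs ℚ M ∧ g.det = 1 / 2 := by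
  have h1 : ¬ LinearIndependent (ZMod 2) (cs (ZMod 2) M).row := by
    intro hl
    obtain ⟨t, ht⟩ := exists_minor hl
    rw [cs_det] at ht
    exact ht ((ZMod.intCast_zmod_eq_zero_iff_dvd _ 2).2 (h t))
  obtain ⟨c, hc, i, hi⟩ := Fintype.not_linearIndependent_iff.1 h1
  have hi1 : (c i).val = 1 := by
    have h2 := ZMod.val_lt (c i)
    have h3 : (c i).val ≠ 0 := fun h0 => hi ((ZMod.val_eq_zero _).1 h0)
    omega
  have h2 : ∀ b, ∃ w : ℤ, ∑ j, ((c j).val : ℤ) * M j b = 2 * w := fun b => by
    refine (ZMod.intCast_zmod_eq_zero_iff_dvd _ 2).1 ?_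
    have := congrFun hc b
    simpa [cs, Matrix.row] using this
  choose w hw using h2
  refine ⟨M.updateRow i w, (1 : Matrix (Fin r) (Fin r) ℚ).updateRow i
    (∑ k, (((c k).val : ℚ) / 2) • (1 : Matrix (Fin r) (Fin r) ℚ) k), ?_, ?_⟩
  · rw [updateRow_mul, Matrix.one_mul]
    ext a b
    by_cases ha : a = i
    · subst ha
      have h3 : ∑ j, ((c j).val : ℚ) * (M j b : ℚ) = 2 * (w b : ℚ) := by exact_mod_cast hw b
      have h4 : (∑ k, (((c k).val : ℚ) / 2) • (1 : Matrix (Fin r) (Fin r) ℚ) k) =
          fun k => ((c k).val : ℚ) / 2 := by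
        ext k
        simp [Finset.sum_apply, one_apply]
      rw [h4]
      simp only [cs, of_apply, updateRow_self, vecMul, dotProduct]
      have h5 : ∑ j, ((c j).val : ℚ) / 2 * (M j b : ℚ) =
          (∑ j, ((c j).val : ℚ) * (M j b : ℚ)) / 2 := by
        rw [Finset.sum_div]
        exact Finset.sum_congr rfl fun j _ => by ring
      rw [h5, h3]
      ring
    · simp only [cs, of_apply, updateRow_ne ha]
  · rw [det_updateRow_sum, det_one, hi1]
    norm_num

theorem v2_half : v2 (1 / 2) = 2 := by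
  have h : padicNorm 2 ((2 : ℕ) : ℚ) = ((2 : ℕ) : ℚ)⁻¹ := padicNorm.padicNorm_p_of_prime
  have h2 : v2 2 = 1 / 2 := by
    rw [v2_apply]
    have : padicNorm 2 (2 : ℚ) = 2⁻¹ := by simpa using h
    rw [this]
    norm_num
  rw [map_div₀, map_one, h2]
  norm_num

end Root2

theorem rootTwoS : RootTwoS := by
  intro d A ρ _ h r M hM
  obtain ⟨t, ht⟩ := (ind_iff M).1 hM
  generalize hn : (M.submatrix id t).det.natAbs = n
  induction n using Nat.strong_induction_on generalizing M with
  | _ n ih =>
    by_cases he : ∀ s : Fin r → Fin d, (2 : ℤ) ∣ (M.submatrix id s).det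
    · obtain ⟨M', g, h1, h2⟩ := Root2.halve M he
      have h3 : 2 * (M'.submatrix id t).det = (M.submatrix id t).det := by
        have h4 : ((cs ℚ M').submatrix id t).det = g.det * ((cs ℚ M).submatrix id t).det := by
          rw [h1, ← det_mul]
          rfl
        rw [cs_det, cs_det, h2] at h4
        have h5 : (2 : ℚ) * ((M'.submatrix id t).det : ℚ) = ((M.submatrix id t).det : ℚ) := by
          rw [h4]
          ring
        exact_mod_cast h5
      have ht' : (M'.submatrix id t).det ≠ 0 := by omega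
      have h4 := ih _ (by omega) M' ((ind_iff M').2 ⟨t, ht'⟩) ht' rfl
      have h5 : (g.map (Rat.castHom ℝ)).det = 1 / 2 := by
        have := (Rat.castHom ℝ).map_det g
        rw [h2] at this
        rw [← RingHom.mapMatrix_apply, ← this]
        simp
      rw [cs_mul (K := ℝ) h1, h1, Matrix.mul_assoc, mn_mul_left, mn_mul_left, h5, h2,
        Root2.v2_half, av_apply, abs_of_pos (by norm_num)] at h4
      linarith
    · obtain ⟨s, hs⟩ := not_forall.1 he
      have h1 : (1 : ℝ) ≤ mn v2 (cs ℚ M) := by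
        refine le_trans (le_of_eq ?_) (le_mn v2 (cs ℚ M) s)
        rw [cs_det, v2_apply, (padicNorm.int_eq_one_iff (p := 2) _).2 (by exact_mod_cast hs)]
        simp
      exact (h r M hM).trans (le_mul_of_one_le_right (mn_nonneg _ _) h1)

end Pool.Agent.Lib.MP_a94b90_nt.U
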