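import Mathlib

/-!
U-numbers that are badly approximable up to a logarithm: definitions and block statements.
Vectors are rows; a vector `Q : Fin d → ℤ` is the list of coefficients of a polynomial of
degree `< d`.
-/

set_option autoImplicit false

namespace Pool.Agent.Lib.MP_a94b90_nt.U

open Matrix Polynomial

/-- Largest value of `v` on the coordinates. -/
noncomputable def vn {K : Type} [Field K] (v : AbsoluteValue K ℝ) {d : ℕ} (w : Fin d → K) : ℝ :=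
  ⨆ a, v (w a)

/-- Largest value of `v` on the maximal minors. -/
noncomputable def mn {K : Type} [Field K] (v : AbsoluteValue K ℝ) {r d : ℕ}
    (B : Matrix (Fin r) (Fin d) K) : ℝ :=
  ⨆ s : Fin r → Fin d, v (B.submatrix id s).det

/-- Taylor matrix: `Q ᵥ* tm d y` lists the Taylor coefficients of `Q` at `y`. -/
def tm {K : Type} [Field K] (d : ℕ) (y : K) : Matrix (Fin d) (Fin d) K :=
  Matrix.of fun b a => (Nat.choose b a : K) * y ^ ((b : ℕ) - a)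

/-- Weights of the diagonal flow at time `j`. -/
noncomputable def wt (d j : ℕ) (a : Fin d) : ℝ :=
  if (a : ℕ) = 0 then 2 ^ ((d - 1) * j) else (2 ^ j)⁻¹

/-- Flow times Taylor matrix. -/
noncomputable def am (d j : ℕ) (y : ℝ) : Matrix (Fin d) (Fin d) ℝ :=
  tm d y * diagonal (wt d j)

/-- Cast of an integer vector. -/
def cv (K : Type) [Field K] {d : ℕ} (Q : Fin d → ℤ) : Fin d → K := fun b => (Q b : K)

/-- Cast of an integer matrix. -/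
def cs (K : Type) [Field K] {r d : ℕ} (M : Matrix (Fin r) (Fin d) ℤ) : Matrix (Fin r) (Fin d) K :=
  Matrix.of fun i b => (M i b : K)

/-- A new first row. -/
def cn {R : Type} {r d : ℕ} (w : Fin d → R) (M : Matrix (Fin r) (Fin d) R) :
    Matrix (Fin (r + 1)) (Fin d) R :=
  Matrix.of (Fin.cons w fun i => M i)

/-- Rows independent over `ℚ`. -/
def Ind {r d : ℕ} (M : Matrix (Fin r) (Fin d) ℤ) : Prop :=
  LinearIndependent ℚ fun i => cv ℚ (M i)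

/-- The real absolute value. -/
noncomputable def av : AbsoluteValue ℝ ℝ := AbsoluteValue.abs

/-- The `2`-adic absolute value. -/
noncomputable def v2 : AbsoluteValue ℚ ℝ := Rat.AbsoluteValue.padic 2

/-- Length of `Q` in the lattice of `y` at time `j`. -/
noncomputable def nrm (d j : ℕ) (y : ℝ) (Q : Fin d → ℤ) : ℝ := vn av (cv ℝ Q ᵥ* am d j y)

/-- Bounded orbit. -/
def Bad (d : ℕ) (y : ℝ) : Prop := ∃ c : ℝ, 0 < c ∧ ∀ (j : ℕ) (Q : Fin d → ℤ), Q ≠ 0 → c ≤ nrm d j y Q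

/-- Orbit bounded up to a power of the time. -/
def Gd (d : ℕ) (c y : ℝ) : Prop :=
  ∀ (j : ℕ) (Q : Fin d → ℤ), Q ≠ 0 → c / ((j : ℝ) + 1) ^ (2 * (d * d)) ≤ nrm d j y Q

/-- `π i` are finer and finer partitions of `S`, from one class to single points. -/
def IsTree (S : Finset ℕ) (π : ℕ → ℕ → ℕ) (N : ℕ) : Prop :=
  (∀ x ∈ S, ∀ y ∈ S, π 0 x = π 0 y) ∧ (∀ i x y, π (i + 1) x = π (i + 1) y → π i x = π i y) ∧
    ∀ x ∈ S, ∀ y ∈ S, π N x = π N y → x = y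

/-- The node of `x` at level `i`. -/
def node (S : Finset ℕ) (π : ℕ → ℕ → ℕ) (i x : ℕ) : Finset ℕ := S.filter fun z => π i z = π i x

open Classical in
/-- Marked points on a finite tree. -/
def TreeS : Prop :=
  ∀ (P : Type) [PartialOrder P] (S : Finset ℕ) (π : ℕ → ℕ → ℕ) (N : ℕ) (rk : P → ℕ) (L : ℕ)
    (ψ : P → ℕ → ℝ) (ε ρ η : ℝ), StrictMono rk → (∀ W, rk W < L) → 0 ≤ η → IsTree S π N →
    (∀ W, ∀ i ≤ N, ∀ x ∈ S, ∀ y ∈ S, π (i - 1) y = π (i - 1) x → ρ ≤ ψ W y →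
      (((node S π i x).filter fun z => ψ W z < ε).card : ℝ) ≤ η * (node S π i x).card) →
    (∀ W, ∃ y ∈ S, ρ ≤ ψ W y) →
    ((S.filter fun x => ¬ ∃ D : Finset P, IsChain (· ≤ ·) (D : Set P) ∧
      (∀ W ∈ D, ε ≤ ψ W x ∧ ψ W x < ρ) ∧
      ∀ W, W ∉ D → (∀ E ∈ D, E ≤ W ∨ W ≤ E) → ρ ≤ ψ W x).card : ℝ) ≤ L * η * S.card

open Classical in
/-- Short vectors are rare, for an abstract covolume `F`. -/
def CoreS : Prop :=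
  ∀ (d : ℕ) (S : Finset ℕ) (π : ℕ → ℕ → ℕ) (N : ℕ)
    (F : ℕ → (r : ℕ) → Matrix (Fin r) (Fin d) ℤ → ℝ) (nv : ℕ → (Fin d → ℤ) → ℝ) (ε ρ η : ℝ),
    0 < ε → ε ≤ ρ → ρ ≤ 1 → 0 ≤ η → IsTree S π N →
    (∀ x r M, 0 ≤ F x r M) → (∀ x M, F x 0 M ≤ 1) →
    (∀ (r : ℕ) (M M' : Matrix (Fin r) (Fin d) ℤ) (g : Matrix (Fin r) (Fin r) ℚ),
      cs ℚ M = g * cs ℚ M' → ∃ c : ℝ, 0 ≤ c ∧ ∀ x, F x r M = c * F x r M') →
    (∀ x r (M : Matrix (Fin r) (Fin d) ℤ) Q, Ind (cn Q M) →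
      F x (r + 1) (cn Q M) ≤ nv x Q * F x r M) →
    (∀ r (M : Matrix (Fin r) (Fin d) ℤ), Ind M → ∀ a : ℝ, 0 < a → ∀ i ≤ N, ∀ x ∈ S, ∀ y ∈ S,
      π (i - 1) y = π (i - 1) x → a * ρ ≤ F y r M →
      (((node S π i x).filter fun z => F z r M < a * ε).card : ℝ) ≤ η * (node S π i x).card) →
    (∃ y ∈ S, ∀ r (M : Matrix (Fin r) (Fin d) ℤ), Ind M → ρ ≤ F y r M) →
    ((S.filter fun x => ∃ Q, Q ≠ 0 ∧ nv x Q < ε).card : ℝ) ≤ (d + 1) * η * S.card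

open Classical in
/-- Polynomials are good functions. -/
def GoodS : Prop :=
  ∀ (K : Type) [Field K] (v : AbsoluteValue K ℝ) (D : ℕ) (ι : Type) [Fintype ι] [Nonempty ι]
    (f : ι → K[X]) (G : K → ℝ) (T Nd : Finset ℕ) (z : ℕ → K) (y : K) (u A a κ η : ℝ),
    1 ≤ D → (∀ s, (f s).natDegree ≤ D) → (∀ t, G t = ⨆ s, v ((f s).eval t)) → T ⊆ Nd →
    0 < u → 1 ≤ A → 0 < a → 0 ≤ η →
    (∀ x ∈ Nd, ∀ r : ℝ, 0 < r →
      ((Nd.filter fun x' => v (z x' - z x) < r * u).card : ℝ) ≤ 2 * r + 1) →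
    (∀ x ∈ Nd, v (y - z x) ≤ 2 * Nd.card * u) →
    (∀ x ∈ Nd, ∃ w : Fin (D + 1) → K, (∀ i j, i ≠ j → u / D ≤ v (w i - w j)) ∧
      ∀ i, v (w i - z x) ≤ D * u ∧ G (w i) ≤ A * G (z x)) →
    a ≤ G y → (∀ x ∈ T, G (z x) < κ * a) →
    ((D : ℝ) + 1) * (4 * (D : ℝ) ^ 2 * (D + 2)) ^ D * A * κ ≤ η ^ D →
    (T.card : ℝ) ≤ η * Nd.card

/-- No short vector gives no sublattice of small covolume. -/
def RootS : Prop :=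
  ∀ (d : ℕ) (A : Matrix (Fin d) (Fin d) ℝ) (c : ℝ), 1 ≤ d → A.det ≠ 0 → 0 < c → c ≤ 1 →
    (∀ Q : Fin d → ℤ, Q ≠ 0 → c ≤ vn av (cv ℝ Q ᵥ* A)) →
    ∀ (r : ℕ) (M : Matrix (Fin r) (Fin d) ℤ), Ind M → (c / d) ^ d ≤ mn av (cs ℝ M * A)

/-- The same after removing the power of `2` that divides all minors. -/
def RootTwoS : Prop :=
  ∀ (d : ℕ) (A : Matrix (Fin d) (Fin d) ℝ) (ρ : ℝ), 1 ≤ d →
    (∀ (r : ℕ) (M : Matrix (Fin r) (Fin d) ℤ), Ind M → ρ ≤ mn av (cs ℝ M * A)) →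
    ∀ (r : ℕ) (M : Matrix (Fin r) (Fin d) ℤ), Ind M → ρ ≤ mn av (cs ℝ M * A) * mn v2 (cs ℚ M)

open Classical in
/-- Nondivergence count over a valued field. -/
def CountS : Prop :=
  ∀ (K : Type) [Field K] [CharZero K] (v : AbsoluteValue K ℝ) (d : ℕ) (S : Finset ℕ)
    (π : ℕ → ℕ → ℕ) (N : ℕ) (z : ℕ → K) (U : Matrix (Fin d) (Fin d) K)
    (E : (r : ℕ) → Matrix (Fin r) (Fin d) ℤ → ℝ) (nE : (Fin d → ℤ) → ℝ) (u ε ρ η : ℝ),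
    1 ≤ d → 0 < u → 0 < ε → ε ≤ ρ → ρ ≤ 1 → 0 ≤ η → IsTree S π N →
    (∀ r M, 0 ≤ E r M) → (∀ M, E 0 M ≤ 1) → (∀ Q, 0 ≤ nE Q) →
    (∀ (r : ℕ) (M M' : Matrix (Fin r) (Fin d) ℤ) (g : Matrix (Fin r) (Fin r) ℚ),
      cs ℚ M = g * cs ℚ M' → ∃ c : ℝ, 0 ≤ c ∧ E r M = c * E r M') →
    (∀ r (M : Matrix (Fin r) (Fin d) ℤ) Q, Ind (cn Q M) → E (r + 1) (cn Q M) ≤ nE Q * E r M) →
    (∀ x ∈ S, ∀ r : ℝ, 0 < r →
      ((S.filter fun x' => v (z x' - z x) < r * u).card : ℝ) ≤ 2 * r + 1) →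
    (∀ i ≤ N, ∀ x ∈ S, ∀ y ∈ S, π (i - 1) y = π (i - 1) x →
      v (z y - z x) ≤ 2 * (node S π i x).card * u) →
    (∀ x ∈ S, ∃ w : Fin (d * d + 1) → K, (∀ i j, i ≠ j → u / (d * d : ℕ) ≤ v (w i - w j)) ∧
      ∀ i, v (w i - z x) ≤ (d * d : ℕ) * u ∧ ∃ V : Matrix (Fin d) (Fin d) K,
        (∀ a b, v (V a b) ≤ 1) ∧ tm d (w i) * U = tm d (z x) * U * V) →
    (∃ y ∈ S, ∀ r (M : Matrix (Fin r) (Fin d) ℤ), Ind M →
      ρ ≤ E r M * mn v (cs K M * (tm d (z y) * U))) →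
    (((d * d : ℕ) : ℝ) + 1) * (4 * ((d * d : ℕ) : ℝ) ^ 2 * ((d * d : ℕ) + 2)) ^ (d * d) *
      (d : ℝ) ^ d * (ε / ρ) ≤ η ^ (d * d) →
    ((S.filter fun x => ∃ Q, Q ≠ 0 ∧
      d * nE Q * vn v (cv K Q ᵥ* (tm d (z x) * U)) < ε).card : ℝ) ≤ (d + 1) * η * S.card

open Classical in
/-- The set of `p < n` with a short vector at time `j` for `α + p / 2 ^ k`. -/
noncomputable def bd (d : ℕ) (α : ℝ) (j k n : ℕ) : Finset ℕ :=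
  (Finset.range n).filter fun p => ∃ Q : Fin d → ℤ, Q ≠ 0 ∧
    nrm d j (α + p / 2 ^ k) Q < 1 / ((j : ℝ) + 1) ^ (2 * (d * d))

/-- Count in a real window. -/
def RealS : Prop :=
  ∀ (d : ℕ) (α : ℝ), 1 ≤ d → Bad d α → ∃ C : ℝ, 0 < C ∧ ∀ j k a : ℕ, C ≤ ((j : ℝ) + 1) ^ 2 →
    d * d * 2 ^ d * 2 ^ (d * j) ≤ 2 ^ k →
    ((bd d α j k (2 ^ a)).card : ℝ) ≤ C / ((j : ℝ) + 1) ^ 2 * 2 ^ a

/-- Count over all residues, at every time. -/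
def TwoS : Prop :=
  ∀ (d : ℕ) (α : ℝ), 1 ≤ d → Bad d α → ∃ C : ℝ, 0 < C ∧ ∀ j k : ℕ, C ≤ ((j : ℝ) + 1) ^ 2 →
    ((bd d α j k (2 ^ k)).card : ℝ) ≤ C / ((j : ℝ) + 1) ^ 2 * 2 ^ k

/-- One step of the construction. -/
def StageS : Prop :=
  ∀ (d : ℕ) (α c c' : ℝ), 1 ≤ d → Bad d α → Gd d c α → 0 < c' → c' < c → c ≤ 1 →
    ∃ e0 : ℕ, ∀ e, e0 ≤ e → ∃ k p : ℕ, 1 / 2 ^ (e + 1) ≤ (p : ℝ) / 2 ^ k ∧
      (p : ℝ) / 2 ^ k < 1 / 2 ^ e ∧ Gd d c' (α + p / 2 ^ k)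

/-- The limit point. -/
def LimS : Prop :=
  ∀ (d : ℕ) (θ : ℝ), 1 ≤ d → Bad d θ → ∃ ξ c : ℝ, 0 < c ∧ Liouville (ξ - θ) ∧ Gd d c ξ

/-- The inequality of Liouville for a real algebraic number of degree `n + 1`. -/
def LiouS : Prop :=
  ∀ (n : ℕ) (θ : ℝ), IsAlgebraic ℚ θ → (minpoly ℚ θ).natDegree = n + 1 → ∃ c : ℝ, 0 < c ∧
    ∀ Q : Fin (n + 1) → ℤ, Q ≠ 0 → ∀ H : ℝ, (∀ b, |(Q b : ℝ)| ≤ H) →
      c ≤ |∑ b, (Q b : ℝ) * θ ^ (b : ℕ)| * H ^ n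

/-- From the inequality to the orbit. -/
def AlgS : Prop :=
  ∀ (n : ℕ) (θ c : ℝ), 0 < c →
    (∀ Q : Fin (n + 1) → ℤ, Q ≠ 0 → ∀ H : ℝ, (∀ b, |(Q b : ℝ)| ≤ H) →
      c ≤ |∑ b, (Q b : ℝ) * θ ^ (b : ℕ)| * H ^ n) → Bad (n + 1) θ

/-- From the orbit to the inequality. -/
def ConvS : Prop :=
  ∀ (n : ℕ) (ξ c : ℝ), 0 < c → Gd (n + 1) c ξ → ∃ c' : ℝ, 0 < c' ∧
    ∀ Q : ℤ[X], Q ≠ 0 → Q.natDegree < n + 1 → ∀ H : ℝ, (∀ i, |(Q.coeff i : ℝ)| ≤ H) →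
      c' ≤ |aeval ξ Q| * H ^ n * Real.log (2 * H) ^ (2 * (n + 1) ^ 3)

/-- An algebraic number plus a Liouville number. -/
def UmS : Prop :=
  ∀ (θ ξ : ℝ), IsAlgebraic ℚ θ → Liouville (ξ - θ) → Transcendental ℚ ξ ∧ ∀ w : ℕ,
    Set.Infinite {P : ℤ[X] | P.natDegree ≤ (minpoly ℚ θ).natDegree ∧ aeval ξ P ≠ 0 ∧
      ∀ i, |aeval ξ P| * |(P.coeff i : ℝ)| ^ w ≤ 1}

end Pool.Agent.Lib.MP_a94b90_nt.U
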