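import Pool.Agent.Lib.MP_a94b90_nt.U.Tay

/-! One step of the construction: a dyadic shift in a given window that keeps the orbit good. -/

set_option autoImplicit false

namespace Pool.Agent.Lib.MP_a94b90_nt.U

namespace Stage

open Finset

theorem bound (S : Finset ℕ) (R : ℕ → ℕ → Prop) (h : ∀ p ∈ S, ∃ j, R p j) :
    ∃ J, ∀ p ∈ S, ∃ j, j ≤ J ∧ R p j := by
  classical
  choose f hf using h
  exact ⟨S.attach.sup fun p => f p.1 p.2, fun p hp =>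
    ⟨f p hp, le_sup (f := fun p : S => f p.1 p.2) (mem_attach S ⟨p, hp⟩), hf p hp⟩⟩

theorem cnt (S : Finset ℕ) (B : ℕ → Finset ℕ) (P : ℕ → Prop) (m : ℕ) (hm : m ≠ 0) (C T : ℝ)
    (hC : 0 ≤ C) (hT : 0 ≤ T)
    (h : ∀ j, m < j → P j → ((B j).card : ℝ) ≤ C / ((j : ℝ) + 1) ^ 2 * T)
    (hS : ∀ p ∈ S, ∃ j, m < j ∧ P j ∧ p ∈ B j) : (S.card : ℝ) ≤ C / m * T := by
  classical
  obtain ⟨J, hJ⟩ := bound S (fun p j => m < j ∧ P j ∧ p ∈ B j) hS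
  have hsub : S ⊆ ((Ioc m (max m J)).filter P).biUnion B := fun p hp => by
    obtain ⟨j, h1, h2, h3, h4⟩ := hJ p hp
    exact mem_biUnion.2 ⟨j, mem_filter.2 ⟨mem_Ioc.2 ⟨h2, h1.trans (le_max_right _ _)⟩, h3⟩, h4⟩
  have h1 : (S.card : ℝ) ≤ ∑ j ∈ (Ioc m (max m J)).filter P, ((B j).card : ℝ) := by
    exact_mod_cast (card_le_card hsub).trans card_biUnion_le
  have h2 := sum_Ioc_inv_sq_le_sub (α := ℝ) hm (le_max_left m J)
  have h3 : (0 : ℝ) ≤ ((max m J : ℕ) : ℝ)⁻¹ := by positivity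
  calc (S.card : ℝ) ≤ _ := h1
    _ ≤ ∑ j ∈ (Ioc m (max m J)).filter P, C * T * ((j : ℝ) ^ 2)⁻¹ := by
        refine sum_le_sum fun j hj => ?_
        obtain ⟨hj1, hj2⟩ := mem_filter.1 hj
        have hj3 := (mem_Ioc.1 hj1).1
        have hj4 : (0 : ℝ) < j := by exact_mod_cast (Nat.zero_le m).trans_lt hj3
        refine (h j hj3 hj2).trans ?_
        rw [div_mul_eq_mul_div, ← div_eq_mul_inv]
        exact div_le_div_of_nonneg_left (mul_nonneg hC hT) (by positivity) (by nlinarith)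
    _ ≤ ∑ j ∈ Ioc m (max m J), C * T * ((j : ℝ) ^ 2)⁻¹ :=
        sum_le_sum_of_subset_of_nonneg (filter_subset _ _) fun j _ _ => by positivity
    _ = C * T * ∑ j ∈ Ioc m (max m J), ((j : ℝ) ^ 2)⁻¹ := by rw [mul_sum]
    _ ≤ C * T * (m : ℝ)⁻¹ := mul_le_mul_of_nonneg_left (by linarith) (mul_nonneg hC hT)
    _ = C / m * T := by ring

theorem good {d j k n p : ℕ} {α c : ℝ} (hc : c ≤ 1) (hp : p < n) (h : p ∉ bd d α j k n)
    (Q : Fin d → ℤ) (hQ : Q ≠ 0) :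
    c / ((j : ℝ) + 1) ^ (2 * (d * d)) ≤ nrm d j (α + p / 2 ^ k) Q := by
  classical
  by_contra hlt
  refine h (mem_filter.2 ⟨mem_range.2 hp, Q, hQ, (not_le.1 hlt).trans_le ?_⟩)
  exact div_le_div_of_nonneg_right hc (by positivity)

end Stage

open Finset in
theorem stageS (h1 : RealS) (h2 : TwoS) : StageS := by
  classical
  intro d α c c' hd hB hG hc' hcc hc1
  obtain ⟨C1, hC1, H1⟩ := h1 d α hd hB
  obtain ⟨C2, hC2, H2⟩ := h2 d α hd hB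
  obtain ⟨j0, hj0⟩ := exists_nat_ge (8 * C1 + 8 * C2 + 1)
  have hj0p : (0 : ℝ) < j0 := by linarith
  have hj0n : j0 ≠ 0 := by rintro rfl; simp at hj0p
  have hsq : ∀ j : ℕ, j0 < j → C1 ≤ ((j : ℝ) + 1) ^ 2 ∧ C2 ≤ ((j : ℝ) + 1) ^ 2 := fun j hj => by
    have : (j0 : ℝ) < j := by exact_mod_cast hj
    constructor <;> nlinarith
  obtain ⟨e0, he0⟩ := pow_unbounded_of_one_lt
    ((d : ℝ) * (2 ^ d * 2 ^ (d * j0)) * c' / (c - c')) (one_lt_two (α := ℝ))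
  refine ⟨e0, fun e he => ?_⟩
  obtain ⟨j1, hj1⟩ : ∃ j1, j1 = j0 * 2 ^ e := ⟨_, rfl⟩
  obtain ⟨a, ha⟩ : ∃ a, a = d * d * 2 ^ d * 2 ^ (d * j1) := ⟨_, rfl⟩
  have hj1n : j1 ≠ 0 := by rw [hj1]; positivity
  have hj01 : j0 ≤ j1 := by rw [hj1]; exact Nat.le_mul_of_pos_right _ (by positivity)
  have hk : ∀ j, j ≤ j1 → d * d * 2 ^ d * 2 ^ (d * j) ≤ 2 ^ (e + (a + 1)) := fun j hj =>
    calc _ ≤ a := by
          rw [ha]
          exact Nat.mul_le_mul_left _ (Nat.pow_le_pow_right two_pos (Nat.mul_le_mul_left _ hj))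
      _ ≤ 2 ^ a := Nat.lt_two_pow_self.le
      _ ≤ _ := Nat.pow_le_pow_right two_pos (by omega)
  have c1 := Stage.cnt ((Ico (2 ^ a) (2 ^ (a + 1))).filter fun p =>
      ∃ j, j0 < j ∧ j ≤ j1 ∧ p ∈ bd d α j (e + (a + 1)) (2 ^ (a + 1)))
    (fun j => bd d α j (e + (a + 1)) (2 ^ (a + 1))) (fun j => j ≤ j1) j0 hj0n C1 (2 ^ (a + 1))
    hC1.le (by positivity) (fun j hj hj' => H1 j _ _ (hsq j hj).1 (hk j hj'))
    fun p hp => (mem_filter.1 hp).2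
  have c2 := Stage.cnt ((Ico (2 ^ a) (2 ^ (a + 1))).filter fun p =>
      ∃ j, j1 < j ∧ True ∧ p ∈ bd d α j (e + (a + 1)) (2 ^ (e + (a + 1))))
    (fun j => bd d α j (e + (a + 1)) (2 ^ (e + (a + 1)))) (fun _ => True) j1 hj1n C2
    (2 ^ (e + (a + 1))) hC2.le (by positivity)
    (fun j hj _ => H2 j _ (hsq j (hj01.trans_lt hj)).2) fun p hp => (mem_filter.1 hp).2
  have b1 : C1 / j0 * 2 ^ (a + 1) ≤ (2 : ℝ) ^ a / 4 := by
    have : C1 / j0 ≤ 1 / 8 := by rw [div_le_iff₀ hj0p]; linarith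
    have h0 : (0 : ℝ) < 2 ^ a := by positivity
    rw [pow_succ]
    nlinarith
  have b2 : C2 / j1 * 2 ^ (e + (a + 1)) ≤ (2 : ℝ) ^ a / 4 := by
    have : C2 / j0 ≤ 1 / 8 := by rw [div_le_iff₀ hj0p]; linarith
    have h0 : (0 : ℝ) < 2 ^ a := by positivity
    have e1 : C2 / j1 * 2 ^ (e + (a + 1)) = C2 / j0 * (2 ^ a * 2) := by
      rw [hj1, pow_add, pow_succ]
      push_cast
      field_simp
    rw [e1]
    nlinarith
  have hex : ∃ p ∈ Ico (2 ^ a) (2 ^ (a + 1)),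
      (¬ ∃ j, j0 < j ∧ j ≤ j1 ∧ p ∈ bd d α j (e + (a + 1)) (2 ^ (a + 1))) ∧
      ¬ ∃ j, j1 < j ∧ True ∧ p ∈ bd d α j (e + (a + 1)) (2 ^ (e + (a + 1))) := by
    by_contra hn
    have hsub : Ico (2 ^ a) (2 ^ (a + 1)) ⊆ ((Ico (2 ^ a) (2 ^ (a + 1))).filter fun p =>
        ∃ j, j0 < j ∧ j ≤ j1 ∧ p ∈ bd d α j (e + (a + 1)) (2 ^ (a + 1))) ∪
        ((Ico (2 ^ a) (2 ^ (a + 1))).filter fun p =>
        ∃ j, j1 < j ∧ True ∧ p ∈ bd d α j (e + (a + 1)) (2 ^ (e + (a + 1)))) := fun p hp => by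
      by_contra hp'
      rw [mem_union, not_or, mem_filter, mem_filter] at hp'
      exact hn ⟨p, hp, fun h => hp'.1 ⟨hp, h⟩, fun h => hp'.2 ⟨hp, h⟩⟩
    have h3 := (card_le_card hsub).trans (card_union_le _ _)
    rw [Nat.card_Ico, show 2 ^ (a + 1) - 2 ^ a = 2 ^ a by rw [pow_succ]; omega] at h3
    have h4 := (Nat.cast_le (α := ℝ)).2 h3
    rw [Nat.cast_add, Nat.cast_pow, Nat.cast_ofNat] at h4
    have h0 : (0 : ℝ) < 2 ^ a := by positivity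
    linarith
  obtain ⟨p, hp, n1, n2⟩ := hex
  obtain ⟨p1, p2⟩ := mem_Ico.1 hp
  have q1 : (2 : ℝ) ^ a ≤ p := by exact_mod_cast p1
  have q2 : (p : ℝ) < 2 ^ (a + 1) := by exact_mod_cast p2
  have s2 : (p : ℝ) / 2 ^ (e + (a + 1)) < 1 / 2 ^ e := by
    rw [div_lt_div_iff₀ (by positivity) (by positivity), pow_add, one_mul, mul_comm]
    exact mul_lt_mul_of_pos_left q2 (by positivity)
  refine ⟨e + (a + 1), p, ?_, s2, fun j Q hQ => ?_⟩
  · rw [div_le_div_iff₀ (by positivity) (by positivity), one_mul,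
      show e + (a + 1) = a + (e + 1) by ring, pow_add]
    exact mul_le_mul_of_nonneg_right q1 (by positivity)
  rcases le_or_gt j j0 with hj | hj
  · have s0 : (0 : ℝ) ≤ (p : ℝ) / 2 ^ (e + (a + 1)) := by positivity
    have s3 : (1 : ℝ) / 2 ^ e ≤ 1 / 2 ^ e0 :=
      one_div_le_one_div_of_le (by positivity) (pow_le_pow_right₀ one_le_two he)
    have s4 : (1 : ℝ) / 2 ^ e0 ≤ 1 := by
      rw [div_le_one (by positivity)]; exact one_le_pow₀ one_le_two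
    have s5 : |(p : ℝ) / 2 ^ (e + (a + 1))| ≤ 1 / 2 ^ e0 := by rw [abs_of_nonneg s0]; linarith
    have h3 := (hG j Q hQ).trans (nrm_le d j α (s5.trans s4) Q)
    have h4 : (d : ℝ) * (2 ^ d * 2 ^ (d * j) * |(p : ℝ) / 2 ^ (e + (a + 1))|) * c' ≤ c - c' := by
      have h5 : (2 : ℝ) ^ (d * j) ≤ 2 ^ (d * j0) :=
        pow_le_pow_right₀ one_le_two (Nat.mul_le_mul_left _ hj)
      rw [div_lt_iff₀ (by linarith)] at he0
      calc _ ≤ (d : ℝ) * (2 ^ d * 2 ^ (d * j0) * (1 / 2 ^ e0)) * c' := by gcongr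
        _ = (d : ℝ) * (2 ^ d * 2 ^ (d * j0)) * c' / 2 ^ e0 := by ring
        _ ≤ c - c' := by rw [div_le_iff₀ (by positivity)]; linarith
    have hX : (0 : ℝ) < 1 + d * (2 ^ d * 2 ^ (d * j) * |(p : ℝ) / 2 ^ (e + (a + 1))|) := by
      positivity
    refine le_of_mul_le_mul_left (le_trans ?_ h3) hX
    rw [← mul_div_assoc]
    exact div_le_div_of_nonneg_right (by linarith) (by positivity)
  rcases le_or_gt j j1 with hj' | hj'
  · exact Stage.good (hcc.le.trans hc1) p2 (fun h => n1 ⟨j, hj, hj', h⟩) Q hQ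
  · exact Stage.good (hcc.le.trans hc1) (p2.trans_le (Nat.pow_le_pow_right two_pos (by omega)))
      (fun h => n2 ⟨j, hj', trivial, h⟩) Q hQ

end Pool.Agent.Lib.MP_a94b90_nt.U
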