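import Pool.Agent.Lib.MP_a94b90_nt.U.Bas

/-! The Taylor matrices, the flow, and continuity in the base point. -/

set_option autoImplicit false

namespace Pool.Agent.Lib.MP_a94b90_nt.U

open Matrix Polynomial

section
variable {K : Type} [Field K] {r : ℕ}

theorem tm_add (d : ℕ) (y s : K) : tm d (y + s) = tm d y * tm d s := by
  ext b a
  have e1 : ∀ (t : K) (b : Fin d), (X + C t) ^ (b : ℕ) = ∑ c : Fin d, C (tm d t b c) * X ^ (c : ℕ) := by
    intro t b
    ext n
    rw [coeff_X_add_C_pow, finset_sum_coeff]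
    simp only [coeff_C_mul, coeff_X_pow, tm, of_apply]
    by_cases hn : n < d
    · rw [Finset.sum_eq_single ⟨n, hn⟩]
      · simp [mul_comm]
      · intro c _ hc
        rw [if_neg fun h => hc (Fin.ext h.symm), mul_zero]
      · simp
    · rw [Nat.choose_eq_zero_of_lt (by omega), Finset.sum_eq_zero]
      · simp
      · intro c _
        rw [if_neg (by omega), mul_zero]
  have e2 : ∀ (t : K) (b a : Fin d), ((X + C t) ^ (b : ℕ)).coeff a = tm d t b a := by
    intro t b a
    rw [coeff_X_add_C_pow, mul_comm]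
    rfl
  have e3 : (X + C (y + s)) ^ (b : ℕ) = ((X + C y) ^ (b : ℕ)).comp (X + C s) := by
    simp only [pow_comp, add_comp, X_comp, C_comp, C_add]
    ring
  rw [← e2, e3, e1 y, mul_apply]
  simp only [sum_comp, mul_comp, C_comp, pow_comp, X_comp, finset_sum_coeff, coeff_C_mul, e2]

theorem tm_zero (d : ℕ) : tm d (0 : K) = 1 := by
  ext b a
  simp only [tm, of_apply, one_apply]
  rcases lt_trichotomy (b : ℕ) a with h | h | h
  · rw [Nat.choose_eq_zero_of_lt h, if_neg (by omega)]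
    simp
  · simp [h, Fin.ext h]
  · rw [zero_pow (by omega), if_neg (by omega), mul_zero]

theorem tm_mul_neg (d : ℕ) (y : K) : tm d y * tm d (-y) = 1 := by
  rw [← tm_add, add_neg_cancel, tm_zero]

theorem mn_poly {d : ℕ} (M : Matrix (Fin r) (Fin d) K) (U : Matrix (Fin d) (Fin d) K)
    (s : Fin r → Fin d) : ∃ f : K[X], f.natDegree ≤ r * d ∧
      ∀ y, ((M * (tm d y * U)).submatrix id s).det = f.eval y := by
  let T : Matrix (Fin r) (Fin r) K[X] := Matrix.of fun i a =>
    ∑ b, C (M i b) * ∑ c : Fin d, C (Nat.choose b c : K) * X ^ ((b : ℕ) - c) * C (U c (s a))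
  refine ⟨T.det, ?_, fun y => ?_⟩
  · have h : ∀ i a, (T i a).natDegree ≤ d := fun i a => by
      simp only [T, of_apply]
      refine natDegree_sum_le_of_forall_le _ _ fun b _ => (natDegree_C_mul_le _ _).trans ?_
      refine natDegree_sum_le_of_forall_le _ _ fun c _ => (natDegree_mul_C_le _ _).trans ?_
      exact (natDegree_C_mul_X_pow_le _ _).trans (by omega)
    rw [det_apply']
    refine natDegree_sum_le_of_forall_le _ _ fun σ _ => ?_
    rw [← C_eq_intCast]
    refine (natDegree_C_mul_le _ _).trans ((natDegree_prod_le _ _).trans ?_)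
    calc _ ≤ ∑ _i : Fin r, d := Finset.sum_le_sum fun i _ => h _ _
      _ = _ := by simp
  · rw [← coe_evalRingHom, RingHom.map_det]
    congr 1
    ext i a
    simp only [T, mul_apply, tm, submatrix_apply, id, of_apply, RingHom.mapMatrix_apply,
      map_apply, coe_evalRingHom, eval_finset_sum, eval_mul, eval_C, eval_pow, eval_X]

theorem shiftQ (d k : ℕ) (p : ℤ) (Q : Fin d → ℤ) (hQ : Q ≠ 0) : ∃ Q' : Fin d → ℤ, Q' ≠ 0 ∧
    ∀ (K : Type) [Field K] [CharZero K],
      cv K Q' = (2 : K) ^ (k * d) • (cv K Q ᵥ* tm d ((p : K) / 2 ^ k)) := by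
  have h : ∀ (K : Type) [Field K] [CharZero K], cv K (fun a : Fin d => ∑ b : Fin d,
      Q b * (Nat.choose b a * p ^ ((b : ℕ) - a) * 2 ^ (k * (d - ((b : ℕ) - a))))) =
      (2 : K) ^ (k * d) • (cv K Q ᵥ* tm d ((p : K) / 2 ^ k)) := by
    intro K _ _
    ext a
    simp only [cv, Pi.smul_apply, smul_eq_mul, vecMul, dotProduct, tm, of_apply, Finset.mul_sum]
    push_cast
    refine Finset.sum_congr rfl fun b _ => ?_
    obtain ⟨e, he⟩ : ∃ e, d = ((b : ℕ) - a) + e := ⟨d - (b - a), by omega⟩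
    generalize (b : ℕ) - a = n at he ⊢
    have : d - n = e := by omega
    rw [this, show k * d = k * n + k * e by rw [he]; ring, div_pow, ← pow_mul, pow_add]
    field_simp
  refine ⟨_, fun h0 => hQ (cv_eq_zero (K := ℚ) ?_), h⟩
  have h1 := h ℚ
  rw [h0] at h1
  have h2 : cv ℚ Q ᵥ* tm d ((p : ℚ) / 2 ^ k) = 0 := by
    have : cv ℚ (0 : Fin d → ℤ) = 0 := by ext; simp [cv]
    rw [this] at h1
    exact (smul_eq_zero.1 h1.symm).resolve_left (by positivity)
  rw [← vecMul_one (cv ℚ Q), ← tm_mul_neg d ((p : ℚ) / 2 ^ k), ← vecMul_vecMul, h2, zero_vecMul]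

end

theorem wt_pos (d j : ℕ) (a : Fin d) : 0 < wt d j a := by
  unfold wt
  split_ifs <;> positivity

/-- The Taylor matrix conjugated by the flow. -/
noncomputable def vm (d j : ℕ) (s : ℝ) : Matrix (Fin d) (Fin d) ℝ :=
  Matrix.of fun b a => (wt d j b)⁻¹ * tm d s b a * wt d j a

theorem am_add (d j : ℕ) (y s : ℝ) : am d j (y + s) = am d j y * vm d j s := by
  have : diagonal (wt d j) * vm d j s = tm d s * diagonal (wt d j) := by
    ext b a
    have := (wt_pos d j b).ne'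
    simp only [diagonal_mul, mul_diagonal, vm, of_apply]
    field_simp
  rw [am, am, tm_add, Matrix.mul_assoc, Matrix.mul_assoc, this]

theorem am_det (d j : ℕ) (y : ℝ) : (am d j y).det ≠ 0 := by
  rw [am, det_mul, det_diagonal]
  refine mul_ne_zero (fun h => ?_) (Finset.prod_ne_zero_iff.2 fun a _ => (wt_pos d j a).ne')
  have := congrArg det (tm_mul_neg d y)
  simp [h] at this

theorem vm_diag (d j : ℕ) (s : ℝ) (a : Fin d) : vm d j s a a = 1 := by
  have := (wt_pos d j a).ne'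
  simp [vm, tm, this]

theorem vm_off (d j : ℕ) {s : ℝ} (hs : |s| ≤ 1) {b a : Fin d} (h : b ≠ a) :
    |vm d j s b a| ≤ 2 ^ d * 2 ^ (d * j) * |s| := by
  have hb := wt_pos d j b
  have ha := wt_pos d j a
  rcases lt_or_gt_of_ne (fun e => h (Fin.ext e) : (b : ℕ) ≠ a) with h1 | h1
  · simp only [vm, tm, of_apply, Nat.choose_eq_zero_of_lt h1]
    simp only [Nat.cast_zero, zero_mul, mul_zero, abs_zero]
    positivity
  have e1 : (wt d j b)⁻¹ * wt d j a ≤ 2 ^ (d * j) := by
    have hb0 : (b : ℕ) ≠ 0 := by omega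
    unfold wt
    rw [if_neg hb0, inv_inv]
    split_ifs
    · rw [← pow_add]
      refine pow_le_pow_right₀ one_le_two (le_of_eq ?_)
      obtain ⟨e, rfl⟩ : ∃ e, d = e + 1 := ⟨d - 1, by have := b.2; omega⟩
      rw [Nat.add_sub_cancel]
      ring
    · rw [mul_inv_cancel₀ (by positivity)]
      exact one_le_pow₀ one_le_two
  have e2 : (Nat.choose b a : ℝ) ≤ 2 ^ d := by
    have := (Nat.choose_le_two_pow b a).trans (Nat.pow_le_pow_right two_pos b.2.le)
    exact_mod_cast this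
  have e3 : |s| ^ ((b : ℕ) - a) ≤ |s| := pow_le_of_le_one (abs_nonneg _) hs (by omega)
  calc |vm d j s b a| = (Nat.choose b a : ℝ) * ((wt d j b)⁻¹ * wt d j a) * |s| ^ ((b : ℕ) - a) := by
        simp only [vm, tm, of_apply, abs_mul, abs_inv, abs_of_pos ha, abs_of_pos hb, abs_pow,
          Nat.abs_cast]
        ring
    _ ≤ _ := by gcongr

theorem nrm_nonneg (d j : ℕ) (y : ℝ) (Q : Fin d → ℤ) : 0 ≤ nrm d j y Q := vn_nonneg _ _

theorem nrm_le (d j : ℕ) (y : ℝ) {s : ℝ} (hs : |s| ≤ 1) (Q : Fin d → ℤ) :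
    nrm d j y Q ≤ (1 + d * (2 ^ d * 2 ^ (d * j) * |s|)) * nrm d j (y + s) Q := by
  have h0 := nrm_nonneg d j (y + s) Q
  have e : am d j y = am d j (y + s) + am d j (y + s) * (vm d j (-s) - 1) := by
    rw [Matrix.mul_sub, ← am_add, Matrix.mul_one, add_neg_cancel_right, add_sub_cancel]
  have h1 := vn_vecMul_le av (cv ℝ Q ᵥ* am d j (y + s)) (U := vm d j (-s) - 1)
    (u := 2 ^ d * 2 ^ (d * j) * |s|) (by positivity) fun a b => by
      rw [av_apply, Matrix.sub_apply]
      by_cases h : a = b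
      · subst h
        rw [vm_diag, one_apply_eq, sub_self, abs_zero]
        positivity
      · rw [one_apply_ne h, sub_zero, ← abs_neg s]
        exact vm_off d j (by rwa [abs_neg]) h
  refine vn_le av (by positivity) fun a => ?_
  rw [e, vecMul_add, ← vecMul_vecMul, Pi.add_apply, add_mul, one_mul]
  exact (av.add_le _ _).trans (add_le_add (le_vn av _ a) ((le_vn av _ a).trans h1))

theorem nrm_shift {d k : ℕ} {p : ℤ} {Q Q' : Fin d → ℤ}
    (h : cv ℝ Q' = (2 : ℝ) ^ (k * d) • (cv ℝ Q ᵥ* tm d ((p : ℝ) / 2 ^ k))) (j : ℕ) (y : ℝ) :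
    nrm d j y Q' = 2 ^ (k * d) * nrm d j (y + p / 2 ^ k) Q := by
  rw [nrm, nrm, h, smul_vecMul, vn_smul, av_apply, abs_of_pos (by positivity), vecMul_vecMul,
    add_comm y, am, am, tm_add, Matrix.mul_assoc]

theorem Bad.shift {d : ℕ} {y : ℝ} (h : Bad d y) (k : ℕ) (p : ℤ) : Bad d (y + p / 2 ^ k) := by
  obtain ⟨c, hc, h⟩ := h
  refine ⟨c / 2 ^ (k * d), by positivity, fun j Q hQ => ?_⟩
  obtain ⟨Q', h1, h2⟩ := shiftQ d k p Q hQ
  rw [div_le_iff₀' (by positivity), ← nrm_shift (h2 ℝ)]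
  exact h j Q' h1

/-- The coordinates of the vector measured by `nrm`. -/
theorem am_apply (d j : ℕ) (y : ℝ) (w : Fin d → ℝ) (a : Fin d) :
    (w ᵥ* am d j y) a = (w ᵥ* tm d y) a * wt d j a := by
  rw [am, ← vecMul_vecMul, vecMul_diagonal]

theorem tm_apply_zero {K : Type} [Field K] (n : ℕ) (y : K) (w : Fin (n + 1) → K) :
    (w ᵥ* tm (n + 1) y) 0 = ∑ b, w b * y ^ (b : ℕ) := by
  simp [vecMul, dotProduct, tm]

theorem abs_tm_le (d : ℕ) (y : ℝ) (b a : Fin d) : |tm d y b a| ≤ 2 ^ d * (1 + |y|) ^ d := by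
  have e2 : (Nat.choose b a : ℝ) ≤ 2 ^ d := by
    have := (Nat.choose_le_two_pow b a).trans (Nat.pow_le_pow_right two_pos b.2.le)
    exact_mod_cast this
  have h0 := abs_nonneg y
  have e3 : |y| ^ ((b : ℕ) - a) ≤ (1 + |y|) ^ d :=
    (pow_le_pow_left₀ h0 (by linarith) _).trans
      (pow_le_pow_right₀ (by linarith) (by have := b.2; omega))
  simp only [tm, of_apply, abs_mul, abs_pow, Nat.abs_cast]
  gcongr

end Pool.Agent.Lib.MP_a94b90_nt.U
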