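import Pool.Agent.Lib.MP_a94b90_nt.U.St

/-! Marked points on a finite tree. -/

set_option autoImplicit false

namespace Pool.Agent.Lib.MP_a94b90_nt.U

open Finset

namespace Tree

/-- A bound on each fibre gives the bound on the whole set. -/
theorem fib (T : Finset ℕ) (f : ℕ → ℕ) (p : ℕ → Prop) [DecidablePred p] (a : ℝ)
    (h : ∀ x ∈ T, (((T.filter fun z => f z = f x).filter p).card : ℝ) ≤
      a * (T.filter fun z => f z = f x).card) : ((T.filter p).card : ℝ) ≤ a * T.card := by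
  rw [card_eq_sum_card_fiberwise (s := T.filter p) (t := T.image f) (f := f)
      (fun x hx => mem_coe.2 (mem_image_of_mem f (mem_filter.1 (mem_coe.1 hx)).1)),
    card_eq_sum_card_fiberwise (s := T) (t := T.image f) (f := f)
      (fun x hx => mem_coe.2 (mem_image_of_mem f (mem_coe.1 hx)))]
  push_cast
  rw [mul_sum]
  refine sum_le_sum fun c hc => ?_
  obtain ⟨x, hx, rfl⟩ := mem_image.1 hc
  rw [filter_comm]
  exact h x hx

variable {P : Type} [PartialOrder P]

/-- `z` is marked relative to the chain `C`. -/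
def Mk (ψ : P → ℕ → ℝ) (ε ρ : ℝ) (C : Finset P) (z : ℕ) : Prop :=
  ∃ D : Finset P, C ⊆ D ∧ IsChain (· ≤ ·) (D : Set P) ∧
    (∀ W ∈ D, W ∉ C → ε ≤ ψ W z ∧ ψ W z < ρ) ∧
    ∀ W, W ∉ D → (∀ E ∈ D, E ≤ W ∨ W ≤ E) → ρ ≤ ψ W z

theorem card_le {rk : P → ℕ} {L : ℕ} (h1 : StrictMono rk) (h2 : ∀ W, rk W < L) {C : Finset P}
    (hC : IsChain (· ≤ ·) (C : Set P)) : C.card ≤ L := by
  rw [← card_range L]
  refine card_le_card_of_injOn rk (fun W _ => mem_coe.2 (mem_range.2 (h2 W))) ?_
  intro W hW E hE h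
  by_contra hne
  rcases hC hW hE hne with h3 | h3
  · exact (h1 (lt_of_le_of_ne h3 hne)).ne h
  · exact (h1 (lt_of_le_of_ne h3 (Ne.symm hne))).ne h.symm

theorem chain_insert [DecidableEq P] {C : Finset P} (hC : IsChain (· ≤ ·) (C : Set P)) {W : P}
    (hW : ∀ E ∈ C, E ≤ W ∨ W ≤ E) : IsChain (· ≤ ·) ((insert W C : Finset P) : Set P) := by
  rw [coe_insert]
  exact hC.insert fun E hE _ => (hW E hE).symm

open Classical in
theorem claim {S : Finset ℕ} {π : ℕ → ℕ → ℕ} {N : ℕ} {rk : P → ℕ} {L : ℕ}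
    {ψ : P → ℕ → ℝ} {ε ρ η : ℝ} (h1 : StrictMono rk) (h2 : ∀ W, rk W < L) (hη : 0 ≤ η)
    (hT : IsTree S π N)
    (hG : ∀ W, ∀ i ≤ N, ∀ x ∈ S, ∀ y ∈ S, π (i - 1) y = π (i - 1) x → ρ ≤ ψ W y →
      (((node S π i x).filter fun z => ψ W z < ε).card : ℝ) ≤ η * (node S π i x).card) (k : ℕ) :
    ∀ C : Finset P, IsChain (· ≤ ·) (C : Set P) → L ≤ C.card + k → ∀ m i, i + m = N →
      ∀ x ∈ S, (∀ W, W ∉ C → (∀ E ∈ C, E ≤ W ∨ W ≤ E) →
        ∃ y ∈ S, π (i - 1) y = π (i - 1) x ∧ ρ ≤ ψ W y) →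
      (((node S π i x).filter fun z => ¬ Mk ψ ε ρ C z).card : ℝ) ≤
        k * η * (node S π i x).card := by
  induction k with
  | zero =>
    intro C hC hL m i _ x _ _
    rw [filter_false_of_mem]
    · simp
    · intro z _
      refine not_not.2 ⟨C, Subset.refl _, hC, fun W hW hn => absurd hW hn, fun W hW hc => ?_⟩
      have := card_le h1 h2 (chain_insert hC hc)
      rw [card_insert_of_notMem hW] at this
      omega
  | succ k ih =>
    intro C hC hL
    have hA : ∀ m i, i + m = N → ∀ x ∈ S, (∀ W, W ∉ C → (∀ E ∈ C, E ≤ W ∨ W ≤ E) →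
        ∃ y ∈ S, π (i - 1) y = π (i - 1) x ∧ ρ ≤ ψ W y) → ∀ W, W ∉ C →
        (∀ E ∈ C, E ≤ W ∨ W ≤ E) → (∀ z ∈ node S π i x, ψ W z < ρ) →
        (((node S π i x).filter fun z => ¬ Mk ψ ε ρ C z).card : ℝ) ≤
          (k + 1 : ℕ) * η * (node S π i x).card := by
      intro m i hi x hx hy W hW hc hs
      obtain ⟨y, hyS, hy1, hy2⟩ := hy W hW hc
      have e1 := hG W i (by omega) x hx y hyS hy1 hy2
      have e2 := ih (insert W C) (chain_insert hC hc)
        (by rw [card_insert_of_notMem hW]; omega) m i hi x hx fun W' hW' hc' =>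
          hy W' (fun h => hW' (mem_insert_of_mem h)) fun E hE => hc' E (mem_insert_of_mem hE)
      have e3 : ((node S π i x).filter fun z => ¬ Mk ψ ε ρ C z) ⊆
          ((node S π i x).filter fun z => ψ W z < ε) ∪
            (node S π i x).filter fun z => ¬ Mk ψ ε ρ (insert W C) z := by
        intro z hz
        obtain ⟨hz1, hz2⟩ := mem_filter.1 hz
        by_cases hε : ψ W z < ε
        · exact mem_union_left _ (mem_filter.2 ⟨hz1, hε⟩)
        · refine mem_union_right _ (mem_filter.2 ⟨hz1, ?_⟩)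
          rintro ⟨D, d1, d2, d3, d4⟩
          refine hz2 ⟨D, (subset_insert W C).trans d1, d2, fun W' hD hn => ?_, d4⟩
          by_cases he : W' = W
          · rw [he]
            exact ⟨not_lt.1 hε, hs z hz1⟩
          · exact d3 W' hD fun h => (mem_insert.1 h).elim he hn
      have e4 := (Nat.cast_le (α := ℝ)).2 ((card_le_card e3).trans (card_union_le _ _))
      push_cast at e4 ⊢
      linarith
    intro m
    induction m with
    | zero =>
      intro i hi x hx hy
      by_cases hB : ∃ W, W ∉ C ∧ (∀ E ∈ C, E ≤ W ∨ W ≤ E) ∧ ∀ z ∈ node S π i x, ψ W z < ρ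
      · obtain ⟨W, w1, w2, w3⟩ := hB
        exact hA 0 i hi x hx hy W w1 w2 w3
      · rw [filter_false_of_mem]
        · simp only [card_empty, Nat.cast_zero]
          positivity
        · intro z hz
          refine not_not.2 ⟨C, Subset.refl _, hC, fun W hW hn => absurd hW hn, fun W hW hc => ?_⟩
          by_contra hlt
          refine hB ⟨W, hW, hc, fun z' hz' => ?_⟩
          have hiN : i = N := by omega
          subst hiN
          rw [hT.2.2 z' (mem_filter.1 hz').1 z (mem_filter.1 hz).1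
            ((mem_filter.1 hz').2.trans (mem_filter.1 hz).2.symm)]
          exact not_le.1 hlt
    | succ m ihm =>
      intro i hi x hx hy
      by_cases hB : ∃ W, W ∉ C ∧ (∀ E ∈ C, E ≤ W ∨ W ≤ E) ∧ ∀ z ∈ node S π i x, ψ W z < ρ
      · obtain ⟨W, w1, w2, w3⟩ := hB
        exact hA (m + 1) i hi x hx hy W w1 w2 w3
      · refine fib _ (π (i + 1)) _ _ fun x' hx' => ?_
        obtain ⟨hx1, hx2⟩ := mem_filter.1 hx'
        have e : ((node S π i x).filter fun z => π (i + 1) z = π (i + 1) x') =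
            node S π (i + 1) x' := by
          ext z
          simp only [node, mem_filter]
          exact ⟨fun h => ⟨h.1.1, h.2⟩, fun h => ⟨⟨h.1, (hT.2.1 i z x' h.2).trans hx2⟩, h.2⟩⟩
        rw [e]
        refine ihm (i + 1) (by omega) x' hx1 fun W hW hc => ?_
        by_contra hn
        refine hB ⟨W, hW, hc, fun z hz => ?_⟩
        by_contra hlt
        exact hn ⟨z, (mem_filter.1 hz).1, (mem_filter.1 hz).2.trans hx2.symm, not_lt.1 hlt⟩

end Tree

theorem treeS : TreeS := by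
  classical
  intro P _ S π N rk L ψ ε ρ η h1 h2 hη hT hG hR
  rcases S.eq_empty_or_nonempty with rfl | ⟨x, hx⟩
  · simp
  have e : node S π 0 x = S := filter_true_of_mem fun z hz => hT.1 z hz x hx
  have h := Tree.claim h1 h2 hη hT hG L ∅ (by simp) (by simp) N 0 (zero_add N) x hx
    fun W _ _ => by
      obtain ⟨y, hy, hy'⟩ := hR W
      exact ⟨y, hy, hT.1 y hy x hx, hy'⟩
  rw [e] at h
  refine le_trans (Nat.cast_le.2 (card_le_card fun z hz => ?_)) h
  obtain ⟨hz1, hz2⟩ := mem_filter.1 hz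
  refine mem_filter.2 ⟨hz1, ?_⟩
  rintro ⟨D, -, d2, d3, d4⟩
  exact hz2 ⟨D, d2, fun W hW => d3 W hW (notMem_empty W), d4⟩

end Pool.Agent.Lib.MP_a94b90_nt.U
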