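import Pool.Agent.Lib.MP_a94b90_nt.U.Tay

/-! The count over all residues modulo a power of two. -/

set_option autoImplicit false

namespace Pool.Agent.Lib.MP_a94b90_nt.U

open Matrix Polynomial

namespace Two

theorem v2_pow (n : ℕ) : v2 ((2 : ℚ) ^ n) = ((2 : ℝ) ^ n)⁻¹ := by
  have h : padicNorm 2 ((2 : ℕ) : ℚ) = ((2 : ℕ) : ℚ)⁻¹ := padicNorm.padicNorm_p one_lt_two
  rw [map_pow, v2_apply, ← inv_pow]
  congr 1
  rw [show (2 : ℚ) = ((2 : ℕ) : ℚ) from rfl, h]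
  simp

theorem v2_int (n : ℤ) : v2 (n : ℚ) ≤ 1 := by
  rw [v2_apply]
  exact_mod_cast padicNorm.of_int (p := 2) n

theorem v2_le_iff (n : ℤ) (i : ℕ) : v2 (n : ℚ) ≤ ((2 : ℝ) ^ i)⁻¹ ↔ ((2 ^ i : ℕ) : ℤ) ∣ n := by
  rw [padicNorm.dvd_iff_norm_le, v2_apply, _root_.zpow_neg, _root_.zpow_natCast,
    ← Rat.cast_le (K := ℝ)]
  simp

theorem v2_ge {n : ℤ} (hn : n ≠ 0) {D : ℕ} (hD : |n| ≤ D) : 1 / (D : ℝ) ≤ v2 (n : ℚ) := by
  have h1 : ((2 : ℕ) : ℤ) ^ padicValInt 2 n ≤ |n| :=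
    Int.le_of_dvd (abs_pos.2 hn) ((dvd_abs _ _).2 (padicValInt_dvd n))
  have h2 : (2 : ℝ) ^ padicValInt 2 n ≤ D := by exact_mod_cast h1.trans hD
  rw [v2_apply, padicNorm.eq_zpow_of_nonzero (by exact_mod_cast hn), padicValRat.of_int,
    _root_.zpow_neg, _root_.zpow_natCast, one_div]
  push_cast
  exact inv_anti₀ (by positivity) h2

theorem dist_iff {k i : ℕ} (hi : i ≤ k) (x y : ℕ) :
    v2 (-((y : ℚ) / 2 ^ k) - -((x : ℚ) / 2 ^ k)) ≤ 2 ^ (k - i) ↔ y % 2 ^ i = x % 2 ^ i := by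
  have e : -((y : ℚ) / 2 ^ k) - -((x : ℚ) / 2 ^ k) = (((x : ℤ) - y : ℤ) : ℚ) / 2 ^ k := by
    push_cast
    ring
  have e2 : (2 : ℝ) ^ (k - i) * (2 ^ k)⁻¹ = (2 ^ i)⁻¹ := by
    rw [pow_sub₀ _ two_ne_zero hi]
    field_simp
  rw [e, map_div₀, v2_pow, div_le_iff₀ (by positivity), e2, v2_le_iff]
  exact Nat.modEq_iff_dvd.symm

theorem card_node {k i : ℕ} (hi : i ≤ k) (x : ℕ) :
    (node (Finset.range (2 ^ k)) (fun i p => p % 2 ^ i) i x).card = 2 ^ (k - i) := by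
  have h := Nat.count_modEq_card (2 ^ k) (r := 2 ^ i) (by positivity) x
  rw [Nat.count_eq_card_filter_range, Nat.mod_eq_zero_of_dvd (pow_dvd_pow 2 hi),
    if_neg (Nat.not_lt_zero _), add_zero, Nat.pow_div hi two_pos] at h
  exact h

theorem tree (k : ℕ) : IsTree (Finset.range (2 ^ k)) (fun i p => p % 2 ^ i) k := by
  refine ⟨fun x _ y _ => ?_, fun i x y h => ?_, fun x hx y hy h => ?_⟩
  · simp [Nat.mod_one]
  · exact Nat.ModEq.of_dvd (pow_dvd_pow 2 (Nat.le_succ i)) h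
  · simpa only [Nat.mod_eq_of_lt (Finset.mem_range.1 hx),
      Nat.mod_eq_of_lt (Finset.mem_range.1 hy)] using h

open Classical in
theorem ball (k x : ℕ) {r : ℝ} (hr : 0 < r) :
    (((Finset.range (2 ^ k)).filter fun y : ℕ =>
      v2 (-((y : ℚ) / 2 ^ k) - -((x : ℚ) / 2 ^ k)) < r * 1).card : ℝ) ≤ 2 * r + 1 := by
  obtain ⟨e, h1, h2⟩ : ∃ e : ℕ, r ≤ 2 ^ e ∧ (2 : ℝ) ^ e ≤ 2 * r + 1 := by
    rcases le_total r 1 with h | h
    · exact ⟨0, by simpa using h, by simp; linarith⟩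
    · obtain ⟨e, h1, h2⟩ := exists_nat_pow_near h one_lt_two
      exact ⟨e + 1, h2.le, by rw [pow_succ]; linarith⟩
  have h3 : (2 : ℝ) ^ (k - (k - e)) ≤ 2 ^ e := pow_le_pow_right₀ one_le_two (by omega)
  refine le_trans ?_ (h3.trans h2)
  have h4 := card_node (Nat.sub_le k e) x
  have h5 : ((Finset.range (2 ^ k)).filter fun y : ℕ =>
      v2 (-((y : ℚ) / 2 ^ k) - -((x : ℚ) / 2 ^ k)) < r * 1) ⊆
      node (Finset.range (2 ^ k)) (fun i p => p % 2 ^ i) (k - e) x := by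
    intro y hy
    rw [Finset.mem_filter, mul_one] at hy
    refine Finset.mem_filter.2 ⟨hy.1, ?_⟩
    rcases le_total e k with h | h
    · refine (dist_iff (Nat.sub_le k e) x y).1 ?_
      rw [Nat.sub_sub_self h]
      exact hy.2.le.trans h1
    · simp [Nat.sub_eq_zero_of_le h, Nat.mod_one]
  exact_mod_cast (Finset.card_le_card h5).trans h4.le

theorem parent {k i : ℕ} (hi : i ≤ k) (x y : ℕ) (h : y % 2 ^ (i - 1) = x % 2 ^ (i - 1)) :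
    v2 (-((y : ℚ) / 2 ^ k) - -((x : ℚ) / 2 ^ k)) ≤
      2 * (node (Finset.range (2 ^ k)) (fun i p => p % 2 ^ i) i x).card * 1 := by
  refine ((dist_iff (by omega) x y).2 h).trans ?_
  rw [card_node hi, mul_one]
  push_cast
  rw [← pow_succ']
  exact pow_le_pow_right₀ one_le_two (by omega)

theorem near (d D : ℕ) (hD : 1 ≤ D) (t : ℚ) :
    ∃ w : Fin (D + 1) → ℚ, (∀ i j, i ≠ j → 1 / (D : ℝ) ≤ v2 (w i - w j)) ∧
      ∀ i, v2 (w i - t) ≤ (D : ℝ) * 1 ∧ ∃ V : Matrix (Fin d) (Fin d) ℚ,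
        (∀ a b, v2 (V a b) ≤ 1) ∧ tm d (w i) * 1 = tm d t * 1 * V := by
  refine ⟨fun i => t + (i : ℕ), fun i j hij => ?_, fun i => ⟨?_, tm d ((i : ℕ) : ℚ), fun a b => ?_, ?_⟩⟩
  · have hi := i.2
    have hj := j.2
    have h := v2_ge (n := ((i : ℕ) : ℤ) - (j : ℕ)) (D := D)
      (fun h => hij (Fin.ext (by omega))) (abs_le.2 ⟨by omega, by omega⟩)
    push_cast at h
    rwa [add_sub_add_left_eq_sub]
  · have h := v2_int ((i : ℕ) : ℤ)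
    have h1 : (1 : ℝ) ≤ D := by exact_mod_cast hD
    rw [Int.cast_natCast] at h
    rw [add_sub_cancel_left, mul_one]
    exact h.trans h1
  · have h := v2_int ((Nat.choose a b : ℤ) * ((i : ℕ) : ℤ) ^ ((a : ℕ) - b))
    push_cast at h
    exact h
  · rw [Matrix.mul_one, Matrix.mul_one, tm_add]

theorem short {d j k p : ℕ} {α b : ℝ} (hd : 1 ≤ d) {Q : Fin d → ℤ} (hQ : Q ≠ 0)
    (h : nrm d j (α + p / 2 ^ k) Q < 1 / b) : ∃ Q' : Fin d → ℤ, Q' ≠ 0 ∧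
      d * (d * nrm d j α Q') * vn v2 (cv ℚ Q' ᵥ* (tm d (-((p : ℚ) / 2 ^ k)) * 1)) <
        (d : ℝ) ^ 2 / b := by
  obtain ⟨Q', h1, h2⟩ := shiftQ d k (p : ℤ) Q hQ
  refine ⟨Q', h1, ?_⟩
  have h3 := nrm_shift (h2 ℝ) j α
  have h4 := h2 ℚ
  rw [Int.cast_natCast] at h3 h4
  have h5 : vn v2 (cv ℚ Q) ≤ 1 := vn_le v2 zero_le_one fun a => v2_int (Q a)
  have h6 := nrm_nonneg d j (α + p / 2 ^ k) Q
  have h7 : (0 : ℝ) < d := by exact_mod_cast hd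
  rw [h3, h4, Matrix.mul_one, smul_vecMul, vecMul_vecMul, tm_mul_neg, vecMul_one, vn_smul, v2_pow]
  calc _ = (d : ℝ) ^ 2 * nrm d j (α + p / 2 ^ k) Q * vn v2 (cv ℚ Q) := by field_simp
    _ ≤ (d : ℝ) ^ 2 * nrm d j (α + p / 2 ^ k) Q * 1 := by gcongr
    _ < (d : ℝ) ^ 2 * (1 / b) := by rw [mul_one]; gcongr
    _ = _ := by ring

end Two

theorem twoS (h1 : CountS) (h2 : RootS) (h3 : RootTwoS) : TwoS := by
  classical
  intro d α hd ⟨c0, hc0, hc⟩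
  have hd1 : (1 : ℝ) ≤ d := by exact_mod_cast hd
  have hD : 1 ≤ d * d := Nat.mul_pos hd hd
  have hD1 : (1 : ℝ) ≤ (d * d : ℕ) := by exact_mod_cast hD
  obtain ⟨c, c0', c1, c2⟩ : ∃ c : ℝ, 0 < c ∧ c ≤ 1 ∧ c ≤ c0 :=
    ⟨min c0 1, lt_min hc0 one_pos, min_le_right _ _, min_le_left _ _⟩
  obtain ⟨ρ, hρ⟩ : ∃ ρ : ℝ, ρ = (c / d) ^ d := ⟨_, rfl⟩
  have ρ0 : 0 < ρ := by rw [hρ]; positivity
  have ρ1 : ρ ≤ 1 := by
    rw [hρ]
    exact pow_le_one₀ (by positivity) (div_le_one_of_le₀ (c1.trans hd1) (by positivity))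
  obtain ⟨B, hB⟩ : ∃ B : ℝ, B = (((d * d : ℕ) : ℝ) + 1) *
    (4 * ((d * d : ℕ) : ℝ) ^ 2 * ((d * d : ℕ) + 2)) ^ (d * d) * (d : ℝ) ^ d := ⟨_, rfl⟩
  have B1 : 1 ≤ B := by
    rw [hB]
    refine one_le_mul_of_one_le_of_one_le (one_le_mul_of_one_le_of_one_le (by linarith)
      (one_le_pow₀ ?_)) (one_le_pow₀ hd1)
    exact one_le_mul_of_one_le_of_one_le (by nlinarith) (by linarith)
  have e1 : 1 ≤ (d : ℝ) ^ 2 / ρ := (one_le_div ρ0).2 (ρ1.trans (one_le_pow₀ hd1))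
  have e2 : (d : ℝ) ^ 2 / ρ ≤ B * (d ^ 2 / ρ) := le_mul_of_one_le_left (by positivity) B1
  refine ⟨(d + 1) * (B * (d ^ 2 / ρ)), by positivity, fun j k hj => ?_⟩
  have hj1 : (1 : ℝ) ≤ (j : ℝ) + 1 := by have := Nat.cast_nonneg (α := ℝ) j; linarith
  have e3 : (d : ℝ) ^ 2 / ((j : ℝ) + 1) ^ (2 * (d * d)) ≤ ρ := by
    rw [div_le_comm₀ (by positivity) ρ0]
    refine e2.trans ((le_mul_of_one_le_left (by positivity) (by linarith)).trans (hj.trans ?_))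
    exact pow_le_pow_right₀ hj1 (by omega)
  have key := h1 ℚ v2 d (Finset.range (2 ^ k)) (fun i p => p % 2 ^ i) k
    (fun p => -((p : ℚ) / 2 ^ k)) 1 (fun _ M => mn av (cs ℝ M * am d j α))
    (fun Q => d * nrm d j α Q) 1 ((d : ℝ) ^ 2 / ((j : ℝ) + 1) ^ (2 * (d * d))) ρ
    (B * (d ^ 2 / ρ) / ((j : ℝ) + 1) ^ 2) hd one_pos (by positivity) e3 ρ1 (by positivity)
    (Two.tree k) (fun _ _ => mn_nonneg _ _) (fun _ => (mn_zero _ _).le)
    (fun Q => mul_nonneg (by positivity) (nrm_nonneg _ _ _ _))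
    (fun r M M' g h => ⟨_, av.nonneg _, by rw [cs_mul (K := ℝ) h, Matrix.mul_assoc, mn_mul_left]⟩)
    (fun r M Q h => ?_) (fun x _ r hr => Two.ball k x hr)
    (fun i hi x _ y _ h => Two.parent hi x y h) (fun x _ => Two.near d (d * d) hD _)
    ⟨0, Finset.mem_range.2 (by positivity), fun r M hM => ?_⟩ ?_
  · refine le_trans ?_ (key.trans (le_of_eq ?_))
    · refine Nat.cast_le.2 (Finset.card_le_card fun p hp => ?_)
      obtain ⟨hp, Q, hQ, h⟩ := Finset.mem_filter.1 hp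
      exact Finset.mem_filter.2 ⟨hp, Two.short hd hQ h⟩
    · rw [Finset.card_range]
      push_cast
      ring
  · have h4 : (r : ℝ) + 1 ≤ d := by exact_mod_cast h.le
    have h5 := vn_nonneg av (cv ℝ Q ᵥ* am d j α)
    have h6 := mn_nonneg av (cs ℝ M * am d j α)
    rw [cs_cn, cn_mul]
    refine (mn_cn av _ _).trans ?_
    unfold nrm
    gcongr
  · rw [Nat.cast_zero, zero_div, neg_zero, tm_zero, Matrix.mul_one, Matrix.mul_one, hρ]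
    exact h3 d _ _ hd (h2 d _ c hd (am_det d j α) c0' c1 fun Q hQ => c2.trans (hc j Q hQ)) r M hM
  · rw [← hB, div_pow, ← pow_mul, div_right_comm, ← mul_div_assoc]
    exact div_le_div_of_nonneg_right (le_self_pow₀ (e1.trans e2) (by omega)) (by positivity)

end Pool.Agent.Lib.MP_a94b90_nt.U
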