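import Pool.Agent.Lib.MP_a94b90_nt.U.St

/-! An algebraic number plus a Liouville number. -/

set_option autoImplicit false

namespace Pool.Agent.Lib.MP_a94b90_nt.U

open Polynomial

namespace Um

theorem coeff_pow_le (a b : ℤ) (i k : ℕ) :
    |((C b * X - C a : ℤ[X]) ^ i).coeff k| ≤ (|a| + |b|) ^ i := by
  induction i generalizing k with
  | zero =>
    rw [pow_zero, pow_zero, coeff_one]
    split_ifs <;> simp
  | succ i ih =>
    have h0 : 0 ≤ (|a| + |b|) ^ i := by positivity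
    have e : (C b * X - C a : ℤ[X]) ^ (i + 1) =
        C b * ((C b * X - C a) ^ i * X) - C a * (C b * X - C a) ^ i := by ring
    have h1 : |((C b * X - C a : ℤ[X]) ^ i * X).coeff k| ≤ (|a| + |b|) ^ i := by
      cases k with
      | zero => rw [coeff_mul_X_zero, abs_zero]; exact h0
      | succ k => rw [coeff_mul_X]; exact ih k
    rw [e, coeff_sub, coeff_C_mul, coeff_C_mul, pow_succ]
    refine (abs_sub _ _).trans ?_
    rw [abs_mul, abs_mul]
    have h2 := mul_le_mul_of_nonneg_left h1 (abs_nonneg b)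
    have h3 := mul_le_mul_of_nonneg_left (ih k) (abs_nonneg a)
    linarith

theorem exists_int (θ : ℝ) (h : IsAlgebraic ℚ θ) :
    ∃ f : ℤ[X], f ≠ 0 ∧ f.natDegree ≤ (minpoly ℚ θ).natDegree ∧ aeval θ f = 0 := by
  refine ⟨IsLocalization.integerNormalization (nonZeroDivisors ℤ) (minpoly ℚ θ), ?_, ?_, ?_⟩
  · rw [Ne, IsFractionRing.integerNormalization_eq_zero_iff]
    exact minpoly.ne_zero h.isIntegral
  · obtain ⟨b, -, hb⟩ :=
      IsLocalization.integerNormalization_spec (nonZeroDivisors ℤ) (minpoly ℚ θ)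
    rw [← natDegree_map_eq_of_injective (IsFractionRing.injective ℤ ℚ), hb]
    exact natDegree_smul_le _ _
  · exact IsLocalization.integerNormalization_aeval_eq_zero _ _ (minpoly.aeval ℚ θ)

theorem exists_lip (θ : ℝ) (f : ℤ[X]) (h : aeval θ f = 0) :
    ∃ D : ℝ, 0 ≤ D ∧ ∀ s : ℝ, |s| ≤ 1 → |aeval (θ + s) f| ≤ D * |s| := by
  have hr : (f.map (algebraMap ℤ ℝ)).IsRoot θ := by
    rw [IsRoot, eval_map_algebraMap, h]
  obtain ⟨g, hg⟩ := dvd_iff_isRoot.2 hr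
  obtain ⟨D, hD⟩ := (isCompact_Icc (a := θ - 1) (b := θ + 1)).exists_bound_of_continuousOn
    g.continuous.continuousOn
  refine ⟨max D 0, le_max_right _ _, fun s hs => ?_⟩
  have h1 := hD (θ + s) ⟨by linarith [(abs_le.1 hs).1], by linarith [(abs_le.1 hs).2]⟩
  rw [← eval_map_algebraMap, hg, eval_mul, eval_sub, eval_X, eval_C, add_sub_cancel_left, abs_mul,
    mul_comm]
  exact mul_le_mul_of_nonneg_right (h1.trans (le_max_left _ _)) (abs_nonneg _)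

/-- The polynomial `b ^ m f (X - a / b)`. -/
noncomputable def sh (f : ℤ[X]) (m : ℕ) (a b : ℤ) : ℤ[X] :=
  ∑ i ∈ Finset.range (m + 1), C (f.coeff i * b ^ (m - i)) * (C b * X - C a) ^ i

theorem sh_deg (f : ℤ[X]) (m : ℕ) (a b : ℤ) : (sh f m a b).natDegree ≤ m := by
  refine natDegree_sum_le_of_forall_le _ _ fun i hi => (natDegree_C_mul_le _ _).trans ?_
  have h1 : (C b * X - C a : ℤ[X]).natDegree ≤ 1 := by compute_degree
  refine natDegree_pow_le.trans ?_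
  have := Nat.mul_le_mul_left i h1
  have := Finset.mem_range.1 hi
  omega

theorem sh_eval (f : ℤ[X]) {m : ℕ} (hm : f.natDegree ≤ m) (a : ℤ) {b : ℤ} (hb : (b : ℝ) ≠ 0)
    (x : ℝ) : aeval x (sh f m a b) = (b : ℝ) ^ m * aeval (x - a / b) f := by
  rw [sh, map_sum, aeval_eq_sum_range' (Nat.lt_succ_of_le hm), Finset.mul_sum]
  refine Finset.sum_congr rfl fun i hi => ?_
  have h1 : i ≤ m := Nat.lt_succ_iff.1 (Finset.mem_range.1 hi)
  have e : (b : ℝ) * x - a = b * (x - a / b) := by field_simp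
  have e2 : (b : ℝ) ^ m = b ^ (m - i) * b ^ i := by rw [← pow_add, Nat.sub_add_cancel h1]
  simp only [map_mul, map_pow, map_sub, aeval_X, eq_intCast,
    map_intCast, zsmul_eq_mul]
  rw [e, e2, mul_pow]
  ring

theorem sh_coeff (f : ℤ[X]) (m : ℕ) {a b : ℤ} {A : ℝ} (hb : 0 < b) (ha : |(a : ℝ)| + b ≤ A * b)
    (k : ℕ) : |((sh f m a b).coeff k : ℝ)| ≤
      (∑ i ∈ Finset.range (m + 1), |(f.coeff i : ℝ)| * A ^ i) * (b : ℝ) ^ m := by
  have hb' : (0 : ℝ) < b := by exact_mod_cast hb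
  rw [sh, finsetSum_coeff, Int.cast_sum, Finset.sum_mul]
  refine (Finset.abs_sum_le_sum_abs _ _).trans (Finset.sum_le_sum fun i hi => ?_)
  have h1 : i ≤ m := Nat.lt_succ_iff.1 (Finset.mem_range.1 hi)
  have h2 : |((((C b * X - C a : ℤ[X]) ^ i).coeff k : ℤ) : ℝ)| ≤ (A * b) ^ i := by
    have h3 : |((((C b * X - C a : ℤ[X]) ^ i).coeff k : ℤ) : ℝ)| ≤ (|(a : ℝ)| + |(b : ℝ)|) ^ i := by
      exact_mod_cast coeff_pow_le a b i k
    rw [abs_of_pos hb'] at h3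
    exact h3.trans (pow_le_pow_left₀ (by positivity) ha i)
  have e2 : (b : ℝ) ^ m = b ^ (m - i) * b ^ i := by rw [← pow_add, Nat.sub_add_cancel h1]
  rw [coeff_C_mul, Int.cast_mul, Int.cast_mul, Int.cast_pow, abs_mul, abs_mul,
    abs_of_pos (pow_pos hb' _)]
  refine (mul_le_mul_of_nonneg_left h2 (by positivity)).trans (le_of_eq ?_)
  rw [e2, mul_pow]
  ring

theorem small {θ ξ : ℝ} (hL : Liouville (ξ - θ)) (hT : Transcendental ℚ ξ) {f : ℤ[X]} (h0 : f ≠ 0)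
    {m : ℕ} (hm : f.natDegree ≤ m) (hf : aeval θ f = 0) (w : ℕ) {ε : ℝ} (hε : 0 < ε) :
    ∃ (P : ℤ[X]) (H : ℝ), P.natDegree ≤ m ∧ aeval ξ P ≠ 0 ∧ 1 ≤ H ∧
      (∀ i, |(P.coeff i : ℝ)| ≤ H) ∧ |aeval ξ P| * H ^ w < ε := by
  obtain ⟨D, hD0, hD⟩ := exists_lip θ f hf
  set A : ℝ := |ξ - θ| + 2 with hA
  set c : ℝ := max 1 (∑ i ∈ Finset.range (m + 1), |(f.coeff i : ℝ)| * A ^ i) with hc
  have hc1 : 1 ≤ c := le_max_left _ _
  obtain ⟨k, hk⟩ := pow_unbounded_of_one_lt (D * c ^ w / ε) (one_lt_two (α := ℝ))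
  obtain ⟨a, b, hb, -, hab⟩ := hL (m + m * w + k)
  have hb2 : (2 : ℝ) ≤ b := by exact_mod_cast hb
  have hb0 : (0 : ℝ) < b := by linarith
  have hb1 : (1 : ℝ) ≤ b := by linarith
  have hs : |ξ - θ - a / b| ≤ 1 :=
    hab.le.trans ((div_le_one (by positivity)).2 (one_le_pow₀ hb1))
  have ha : |(a : ℝ)| + b ≤ A * b := by
    have h1 : |(a : ℝ) / b| ≤ |ξ - θ| + 1 := by
      have := abs_sub (ξ - θ) (ξ - θ - a / b)
      rw [sub_sub_cancel] at this
      linarith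
    rw [abs_div, abs_of_pos hb0, div_le_iff₀ hb0] at h1
    rw [hA]
    linarith
  refine ⟨sh f m a b, c * (b : ℝ) ^ m, sh_deg f m a b, ?_,
    one_le_mul_of_one_le_of_one_le hc1 (one_le_pow₀ hb1), fun i => ?_, ?_⟩
  · rw [sh_eval f hm a hb0.ne']
    refine mul_ne_zero (pow_pos hb0 _).ne' fun h => hT ?_
    have h1 : IsAlgebraic ℚ (ξ - a / b) := (IsFractionRing.isAlgebraic_iff ℤ ℚ ℝ).1 ⟨f, h0, h⟩
    have h2 : IsAlgebraic ℚ ((a : ℝ) / b) := by
      simpa using isAlgebraic_algebraMap (R := ℚ) (A := ℝ) ((a : ℚ) / b)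
    simpa using h1.add h2
  · exact (sh_coeff f m (by omega) ha i).trans
      (mul_le_mul_of_nonneg_right (le_max_right _ _) (by positivity))
  · have h1 := hD _ hs
    rw [show θ + (ξ - θ - a / b) = ξ - a / b by ring] at h1
    have h2 := h1.trans (mul_le_mul_of_nonneg_left hab.le hD0)
    have h3 : (2 : ℝ) ^ k ≤ (b : ℝ) ^ k := pow_le_pow_left₀ (by norm_num) hb2 k
    rw [div_lt_iff₀ hε] at hk
    rw [sh_eval f hm a hb0.ne', abs_mul, abs_of_pos (pow_pos hb0 _)]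
    calc _ ≤ (b : ℝ) ^ m * (D * (1 / (b : ℝ) ^ (m + m * w + k))) * (c * (b : ℝ) ^ m) ^ w := by
          gcongr
      _ = D * c ^ w / (b : ℝ) ^ k := by
          rw [pow_add, pow_add, mul_pow, ← pow_mul]
          field_simp
      _ < ε := by
          rw [div_lt_iff₀ (by positivity)]
          nlinarith

end Um

theorem umS : UmS := by
  intro θ ξ hθ hL
  have hT : Transcendental ℚ ξ := fun h =>
    hL.transcendental ((IsFractionRing.isAlgebraic_iff ℤ ℚ ℝ).2 (h.sub hθ))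
  refine ⟨hT, fun w hfin => ?_⟩
  obtain ⟨f, h0, hm, hf⟩ := Um.exists_int θ hθ
  have key : ∀ ε : ℝ, 0 < ε → ∃ P ∈ {P : ℤ[X] | P.natDegree ≤ (minpoly ℚ θ).natDegree ∧
      aeval ξ P ≠ 0 ∧ ∀ i, |aeval ξ P| * |(P.coeff i : ℝ)| ^ w ≤ 1}, |aeval ξ P| < ε := by
    intro ε hε
    obtain ⟨P, H, h1, h2, h3, h4, h5⟩ := Um.small hL hT h0 hm hf w (lt_min hε one_pos)
    refine ⟨P, ⟨h1, h2, fun i => le_trans ?_ (h5.le.trans (min_le_right _ _))⟩,
      lt_of_le_of_lt ?_ (h5.trans_le (min_le_left _ _))⟩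
    · exact mul_le_mul_of_nonneg_left (pow_le_pow_left₀ (abs_nonneg _) (h4 i) w) (abs_nonneg _)
    · exact le_mul_of_one_le_right (abs_nonneg _) (one_le_pow₀ h3)
  obtain ⟨P₁, hP₁, -⟩ := key 1 one_pos
  obtain ⟨P₀, hP₀, hmin⟩ := Set.exists_min_image _ (fun P : ℤ[X] => |aeval ξ P|) hfin ⟨P₁, hP₁⟩
  obtain ⟨P, hP, hlt⟩ := key _ (abs_pos.2 hP₀.2.1)
  exact absurd (hmin P hP) (not_le.2 hlt)

end Pool.Agent.Lib.MP_a94b90_nt.U
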